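import Pool.Agent.W23.SG.Fin3
import Pool.Agent.W23.DC.All
import Pool.Agent.W826.SG.BK2
import Pool.Agent.W826.SG.FI2
import Pool.Agent.W973.SG.BKF2
import Pool.Agent.W973.SG.FIF2
import Pool.Agent.W973.SG.PBL
import Pool.Agent.W137.SG.NCL
import Pool.Agent.W177.SG.TTL
import Pool.Agent.W74.SG.BLF
import Pool.Agent.W347.SG.NU3
import Pool.Agent.W488.SG.PA

/-!
SG project (helper23): assembly.
-/

namespace Pool.Agent.W23.SG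

open Finset
open Pool.Agent.H442R2
open Pool.Agent.W23.DC

theorem BK2_thm : St_BK2 := W826.SG.BK2 BX.TT_thm (BX.DI BX.PB_thm BX.GS BX.GW_thm) BX.DU
  (BX.PR BX.PB_thm BX.RT) BX.WX BX.EX
theorem FI2_thm : St_FI2 := W826.SG.FI2 BK2_thm
theorem BKF2_thm : St_BKF2 := W973.SG.BKF2 TTF_thm (BX.DI BX.PB_thm BX.GS BX.GW_thm) BX.DU
  (BX.PR BX.PB_thm BX.RT) W586.DC.WXS BX.EX
theorem FIF2_thm : St_FIF2 := W973.SG.FIF2 BKF2_thm FI2_thm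
theorem PBL_thm : St_PBL := W973.SG.PBL BX.RA
theorem TTL_thm : St_TTL := W177.SG.TTL W488.SG.PA PBL_thm (W137.SG.NCL PBL_thm BX.GS) BX.RB
theorem BLF_thm : St_BLF := W74.SG.BLF TTL_thm PBL_thm BX.GS BX.GW_thm BX.WX BX.RT

open Classical in
/-- **Sparse sets of primes and almost primes** -/
theorem sparse_sets (ε : ℝ) (hε : 0 < ε) :
    ∃ c C η : ℝ, 0 < c ∧ 0 < η ∧ ∀ X : ℕ, 2 ≤ X → ∀ A : Finset ℕ,
      (∀ p ∈ A, p.Prime ∧ p ≤ X) → (X : ℝ) ^ (1 - η) ≤ A.card →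
      (((Icc (-(2 * X : ℤ)) (2 * X)).filter (fun N : ℤ => ((A.filter (fun p : ℕ =>
        (p : ℤ) ≠ N ∧ ∃ m s : ℕ, (N - p).natAbs = m * s ∧
          (∀ l : ℕ, l.Prime → l ∣ m → (l : ℝ) < (X : ℝ) ^ ε) ∧
          s.primeFactorsList.length ≤ 2 ∧
          ∀ q ∈ s.primeFactors, (X : ℝ) ^ (1 / 7 : ℝ) < q)).card : ℝ) < c * A.card)).card : ℝ) ≤
        C * (X / (A.card * Real.log X)) :=
  sparse W52.DC.PT W120.DC.LN W586.DC.ER W505.DC.MI MT_thm W378.DC.MP W378.DC.FA W120.DC.NU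
    W366.DC.SFX FIF2_thm ε hε

open Classical in
/-- **Sets of primes and almost prime values of linear forms** -/
theorem linear_forms (ε : ℝ) (hε : 0 < ε) :
    ∃ c C η : ℝ, 0 < c ∧ 0 < η ∧ ∀ X : ℕ, 2 ≤ X → ∀ Q : Finset ℕ,
      (∀ q ∈ Q, q.Prime ∧ q ≤ X) → (X : ℝ) ^ (1 - η) ≤ Q.card → ∀ E : Finset (ℤ × ℕ),
      (∀ L ∈ E, Int.gcd L.1 L.2 = 1 ∧ |(L.1 : ℝ)| ≤ (X : ℝ) ^ (4 / 3 : ℝ) ∧ 1 ≤ L.2 ∧
        (L.2 : ℝ) ≤ (X : ℝ) ^ (1 / 3 : ℝ) ∧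
        ((Q.filter (fun q : ℕ => L.1 + L.2 * q ≠ 0 ∧
          ∃ m s : ℕ, (L.1 + L.2 * q).natAbs = m * s ∧
            (∀ l : ℕ, l.Prime → l ∣ m → (l : ℝ) < (X : ℝ) ^ ε) ∧
            s.primeFactorsList.length ≤ 3 ∧
            ∀ l ∈ s.primeFactors, (X : ℝ) ^ (1 / 8 : ℝ) ≤ l)).card : ℝ) < c * Q.card) →
      (E.card : ℝ) ≤ C * (X / (Q.card * Real.log X)) :=
  lin W52.DC.PT W120.DC.LN W586.DC.ER W505.DC.MI MT_thm W378.DC.MP W347.SG.NU3 W366.DC.SFX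
    BLF_thm ε hε

end Pool.Agent.W23.SG
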