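import Pool.Agent.W23.SG.Defs
import Pool.Agent.W23.DC.Fin3
import Pool.Agent.W23.DC.Fin5

/-!
SG project (helper23): the weighted sieve for linear forms at level `99/200`.
-/

namespace Pool.Agent.W23.SG

open Finset
open Pool.Agent.H442R2
open Pool.Agent.H442R2.KF
open Pool.Agent.W23.DC

open Classical in
/-- primes of size in `[u, v)` not dividing `b` -/
noncomputable def prb (N b : ℕ) (u v : ℝ) : Finset ℕ := (pr N u v).filter (fun p => ¬ p ∣ b)

theorem mem_prb {N b : ℕ} {u v : ℝ} {p : ℕ} : p ∈ prb N b u v ↔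
    ((1 ≤ p ∧ p ≤ N) ∧ p.Prime ∧ u ≤ tt N p ∧ tt N p < v) ∧ ¬ p ∣ b := by
  simp only [prb, mem_filter, mem_pr]

theorem prb_sub {N b : ℕ} {u v : ℝ} {p : ℕ} (h : p ∈ prb N b u v) : p ∈ pr N u v :=
  (mem_filter.1 h).1

theorem sizb {N : ℕ} (hN : 2 ≤ N) (b : ℕ) (u v : ℝ) : Siz (prb N b u v) (tt N) :=
  ⟨fun p hp => (siz hN u v).pr p (prb_sub hp), fun p hp => (siz hN u v).pos p (prb_sub hp),
    fun p hp q hq => (siz hN u v).mono p (prb_sub hp) q (prb_sub hq)⟩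

open Classical in
/-- the primes dividing `b` contribute little -/
theorem bpart {N b : ℕ} (hN : 2 ≤ N) (hb1 : 1 ≤ b) (hb : b ≤ N ^ 2) {ε₁ v : ℝ} (hε : 0 < ε₁) :
    ∑ p ∈ (pr N ε₁ v).filter (fun p => p ∣ b), 1 / ((p : ℝ) - 1) ≤
      4 / ε₁ * (N : ℝ) ^ (-ε₁) := by
  have hN1 : (1 : ℝ) ≤ N := by exact_mod_cast (by omega : 1 ≤ N)
  have hN1' : (1 : ℝ) < N := by exact_mod_cast (by omega : 1 < N)
  have hN0 : (0 : ℝ) < N := by linarith
  set S := (pr N ε₁ v).filter (fun p => p ∣ b) with hS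
  have hSp : ∀ p ∈ S, p.Prime ∧ p ∣ b ∧ (N : ℝ) ^ ε₁ ≤ p := by
    intro p hp
    rw [hS, mem_filter] at hp
    have h1 := mem_pr.1 hp.1
    exact ⟨h1.2.1, hp.2, (le_tt_iff hN h1.2.1.pos _).1 h1.2.2.1⟩
  have hprod : ∏ p ∈ S, p ∣ b :=
    Finset.prod_primes_dvd b (fun q hq => (hSp q hq).1.prime) (fun q hq => (hSp q hq).2.1)
  have hle : ((N : ℝ) ^ ε₁) ^ S.card ≤ (N : ℝ) ^ (2 : ℝ) := by
    calc ((N : ℝ) ^ ε₁) ^ S.card = ∏ _p ∈ S, (N : ℝ) ^ ε₁ := by rw [Finset.prod_const]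
      _ ≤ ∏ p ∈ S, (p : ℝ) :=
          Finset.prod_le_prod (fun _ _ => by positivity) (fun p hp => (hSp p hp).2.2)
      _ = ((∏ p ∈ S, p : ℕ) : ℝ) := by push_cast; rfl
      _ ≤ (b : ℝ) := by exact_mod_cast Nat.le_of_dvd (by omega) hprod
      _ ≤ _ := by
          rw [Real.rpow_two]
          exact_mod_cast hb
  have hcard : (S.card : ℝ) ≤ 2 / ε₁ := by
    rw [← Real.rpow_natCast, ← Real.rpow_mul hN0.le] at hle
    have := (Real.rpow_le_rpow_left_iff hN1').1 hle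
    rw [le_div_iff₀ hε]
    linarith
  calc ∑ p ∈ S, 1 / ((p : ℝ) - 1) ≤ ∑ _p ∈ S, 2 * (N : ℝ) ^ (-ε₁) := by
        apply Finset.sum_le_sum
        intro p hp
        obtain ⟨h1, h2, h3⟩ := hSp p hp
        have h4 : (2 : ℝ) ≤ p := by exact_mod_cast h1.two_le
        rw [Real.rpow_neg hN0.le, ← div_eq_mul_inv]
        have h5 : 0 < (N : ℝ) ^ ε₁ := by positivity
        rw [div_le_div_iff₀ (by linarith) h5]
        nlinarith
    _ = S.card * (2 * (N : ℝ) ^ (-ε₁)) := by rw [Finset.sum_const, nsmul_eq_mul]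
    _ ≤ 2 / ε₁ * (2 * (N : ℝ) ^ (-ε₁)) := by gcongr
    _ = _ := by ring

theorem merb (hMP : St_MP) (ε₁ w η : ℝ) (hε : 0 < ε₁) (hw : w ≤ 1) (hη : 0 < η) :
    ∃ N₀ : ℕ, ∀ N : ℕ, N₀ ≤ N → ∀ b : ℕ, 1 ≤ b → b ≤ N ^ 2 →
      Mer (prb N b ε₁ w) (tt N) (fun p => 1 / ((p : ℝ) - 1)) ε₁ w η := by
  classical
  obtain ⟨N₀, H⟩ := hMP ε₁ (η / 2) hε (by positivity)
  have hlim : Filter.Tendsto (fun N : ℕ => 4 / ε₁ * (N : ℝ) ^ (-ε₁)) Filter.atTop
      (nhds (4 / ε₁ * 0)) :=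
    ((tendsto_rpow_neg_atTop hε).comp (tendsto_natCast_atTop_atTop (R := ℝ))).const_mul _
  rw [mul_zero] at hlim
  obtain ⟨N₁, hN₁⟩ := Filter.eventually_atTop.1
    (hlim.eventually_le_const (show (0 : ℝ) < η / 2 by positivity))
  refine ⟨max (max N₀ N₁) 2, fun N hN b hb1 hb c d hc hcd hd => ?_⟩
  have hNN₀ : N₀ ≤ N := ((le_max_left _ _).trans (le_max_left _ _)).trans hN
  have hNN₁ : N₁ ≤ N := ((le_max_right _ _).trans (le_max_left _ _)).trans hN
  have hN2 : 2 ≤ N := (le_max_right _ _).trans hN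
  have h1 := H N hNN₀ c d hc hcd (hd.trans hw)
  have e1 : ∑ p ∈ (prb N b ε₁ w).filter (fun p => c ≤ tt N p ∧ tt N p < d), 1 / ((p : ℝ) - 1) =
      ∑ p ∈ pr N c d, 1 / ((p : ℝ) - 1) -
        ∑ p ∈ (pr N c d).filter (fun p => p ∣ b), 1 / ((p : ℝ) - 1) := by
    rw [← Finset.sum_filter_add_sum_filter_not (pr N c d) (fun p => p ∣ b)]
    rw [add_sub_cancel_left]
    apply Finset.sum_congr
    · ext p
      rw [mem_filter, mem_prb, mem_filter, mem_pr]
      constructor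
      · rintro ⟨⟨⟨g1, g2, g3, g4⟩, g5⟩, g6, g7⟩
        exact ⟨⟨g1, g2, g6, g7⟩, g5⟩
      · rintro ⟨⟨g1, g2, g6, g7⟩, g5⟩
        exact ⟨⟨⟨g1, g2, hc.trans g6, lt_of_lt_of_le g7 hd⟩, g5⟩, g6, g7⟩
    · intro p _
      rfl
  have h2 : ∑ p ∈ (pr N c d).filter (fun p => p ∣ b), 1 / ((p : ℝ) - 1) ≤
      4 / ε₁ * (N : ℝ) ^ (-ε₁) := by
    refine le_trans ?_ (bpart (v := d) hN2 hb1 hb hε)
    apply Finset.sum_le_sum_of_subset_of_nonneg
    · intro p hp
      rw [mem_filter, mem_pr] at hp ⊢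
      exact ⟨⟨hp.1.1, hp.1.2.1, hc.trans hp.1.2.2.1, hp.1.2.2.2⟩, hp.2⟩
    · intro p hp _
      exact g_nonneg p (mem_filter.1 hp).1
  have h3 : 0 ≤ ∑ p ∈ (pr N c d).filter (fun p => p ∣ b), 1 / ((p : ℝ) - 1) :=
    Finset.sum_nonneg fun p hp => g_nonneg p (mem_filter.1 hp).1
  have h4 := hN₁ N hNN₁
  rw [e1]
  rw [abs_le] at h1 ⊢
  constructor <;> linarith [h1.1, h1.2]

/-- the weight of the middle prime -/
noncomputable def c3 (N : ℕ) (q : ℕ) : ℝ := 29 / 30 * (1 - tt N q / (9 / 20))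

theorem c3_nonneg {N : ℕ} {u : ℝ} : ∀ q ∈ pr N u (9 / 20), 0 ≤ c3 N q := by
  intro q hq
  have := (mem_pr.1 hq).2.2.2
  unfold c3
  have h1 : tt N q / (9 / 20) ≤ 1 := by
    rw [div_le_one (by norm_num)]
    exact this.le
  nlinarith

theorem c3_le {N : ℕ} (hN : 2 ≤ N) {u v : ℝ} : ∀ q ∈ pr N u v, c3 N q ≤ 29 / 30 := by
  intro q hq
  have := (siz hN u v).pos q hq
  unfold c3
  have h1 : 0 ≤ tt N q / (9 / 20) := by positivity
  nlinarith

/-- the sum over the middle primes -/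
theorem QS3 (hMI : St_MI) (hMP : St_MP) (η₂ : ℝ) (hη : 0 < η₂) :
    ∃ N₀ : ℕ, ∀ N : ℕ, N₀ ≤ N →
      ∑ q ∈ pr N (1 / 8) (9 / 20), 1 / ((q : ℝ) - 1) * (c3 N q / (99 / 200 - tt N q)) ≤
      29 / 30 * (∫ x in (1 / 8 : ℝ)..(9 / 20), (1 - x / (9 / 20)) / (x * (99 / 200 - x))) + η₂ := by
  set h : ℝ → ℝ := fun x => 29 / 30 * (1 - x / (9 / 20)) / (99 / 200 - x) with hh
  have hc : ContinuousOn h (Set.Icc (1 / 8) (9 / 20)) := by
    apply ContinuousOn.div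
    · fun_prop
    · fun_prop
    · intro x hx
      have := hx.2
      linarith
  obtain ⟨H, hH⟩ := isCompact_Icc.exists_bound_of_continuousOn hc
  have hu := isCompact_Icc.uniformContinuousOn_of_continuous hc
  set κ : ℝ := η₂ / (2 * Real.log (1 / (1 / 8)) + 2) with hκ
  have hlog : 0 < Real.log (1 / (1 / 8)) := Real.log_pos (by norm_num)
  have hκ0 : 0 < κ := by positivity
  rw [Metric.uniformContinuousOn_iff] at hu
  obtain ⟨ρ, hρ, hu⟩ := hu κ hκ0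
  obtain ⟨η, hη0, HH⟩ := hMI (1 / 8) (ρ / 2) κ (max H 1) (by norm_num) (by norm_num) (by positivity)
    hκ0 (by positivity)
  obtain ⟨N₀, hN₀⟩ := mer_of hMP (1 / 8) (9 / 20) η (by norm_num) (by norm_num) hη0
  refine ⟨N₀, fun N hN => ?_⟩
  have key := HH (pr N (1 / 8) (9 / 20)) (tt N) (fun p => 1 / ((p : ℝ) - 1)) (9 / 20)
    (by norm_num) g_nonneg (hN₀ N hN) (1 / 8) (9 / 20) h le_rfl (by norm_num) le_rfl hc
    (fun x hx => (hH x hx).trans (le_max_left _ _))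
    (fun x hx y hy hxy => by
      have h1 := hu x hx y hy (by
        rw [Real.dist_eq]
        linarith)
      rw [Real.dist_eq] at h1
      exact h1.le)
  rw [pr_sub N (1 / 8) (9 / 20) (1 / 8) (9 / 20) le_rfl le_rfl] at key
  have e1 : κ * (2 * Real.log (1 / (1 / 8)) + 2) = η₂ := by
    rw [hκ]
    field_simp
  rw [e1] at key
  have e2 : ∫ x in (1 / 8 : ℝ)..(9 / 20), h x / x =
      29 / 30 * ∫ x in (1 / 8 : ℝ)..(9 / 20), (1 - x / (9 / 20)) / (x * (99 / 200 - x)) := by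
    rw [← intervalIntegral.integral_const_mul]
    apply intervalIntegral.integral_congr
    intro x hx
    rw [Set.uIcc_of_le (by norm_num)] at hx
    have h1 : x ≠ 0 := by
      have := hx.1
      intro h
      rw [h] at this
      linarith
    have h2 : 99 / 200 - x ≠ 0 := by
      have := hx.2
      intro h
      linarith
    simp only [hh]
    field_simp
  rw [e2] at key
  have := (abs_le.1 key).2
  simp only [hh] at this
  unfold c3
  linarith

open Classical in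
/-- the weight -/
noncomputable def Wb (N b : ℕ) (ε₁ : ℝ) (n : ℕ) : ℝ :=
  (if ∀ p ∈ prb N b ε₁ (1 / 8), ¬ p ∣ n then 1 else 0) *
    (1 - ∑ q ∈ prb N b (1 / 8) (9 / 20), c3 N q * (if q ∣ n then 1 else 0))

/-- the second level and the sifting limit -/
noncomputable def ta3 (N q : ℕ) : ℝ := 99 / 200 - tt N q
noncomputable def za3 (N q : ℕ) : ℝ := min (1 / 8) (ta3 N q)

theorem Wb_ge (hPT : St_PT) {N : ℕ} (hN : 2 ≤ N) (b : ℕ) {ε₁ : ℝ} (K n : ℕ) :
    LL (prb N b ε₁ (1 / 8)) (tt N) (ind n) K false (99 / 200) (1 / 8) 1 -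
      ∑ q ∈ prb N b (1 / 8) (9 / 20), c3 N q *
        LL (prb N b ε₁ (1 / 8)) (tt N) (ind n) K true (ta3 N q) (za3 N q) q ≤ Wb N b ε₁ n := by
  classical
  have hS := sizb hN b ε₁ (1 / 8)
  have h1 := (hPT (prb N b ε₁ (1 / 8)) (tt N) hS n K (99 / 200) (1 / 8) 1
    (fun p hp _ h => (hS.pr p hp).one_lt.ne' (Nat.dvd_one.1 h))).2
  have h2 : ∀ q ∈ prb N b (1 / 8) (9 / 20),
      (if ∀ p ∈ prb N b ε₁ (1 / 8), ¬ p ∣ n then (1 : ℝ) else 0) * (if q ∣ n then 1 else 0) ≤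
      LL (prb N b ε₁ (1 / 8)) (tt N) (ind n) K true (ta3 N q) (za3 N q) q := by
    intro q hq
    have h3 := (hPT (prb N b ε₁ (1 / 8)) (tt N) hS n K (ta3 N q) (za3 N q) q (fun p hp _ h => by
      have h4 := (Nat.prime_dvd_prime_iff_eq (hS.pr p hp) (mem_prb.1 hq).1.2.1).1 h
      have h5 := (mem_prb.1 hp).1.2.2.2
      have h6 := (mem_prb.1 hq).1.2.2.1
      rw [h4] at h5
      linarith)).1
    refine le_trans ?_ h3
    by_cases h7 : ∀ p ∈ prb N b ε₁ (1 / 8), ¬ p ∣ n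
    · by_cases h8 : q ∣ n
      · rw [if_pos h7, if_pos h8, if_pos ⟨h8, fun p hp _ => h7 p hp⟩, one_mul]
      · rw [if_neg h8, mul_zero]
        split_ifs <;> norm_num
    · rw [if_neg h7, zero_mul]
      split_ifs <;> norm_num
  have h9 : LL (prb N b ε₁ (1 / 8)) (tt N) (ind n) K false (99 / 200) (1 / 8) 1 ≤
      (if ∀ p ∈ prb N b ε₁ (1 / 8), ¬ p ∣ n then (1 : ℝ) else 0) := by
    refine h1.trans ?_
    by_cases h7 : ∀ p ∈ prb N b ε₁ (1 / 8), ¬ p ∣ n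
    · rw [if_pos h7]
      split_ifs <;> norm_num
    · rw [if_neg h7, if_neg]
      rintro ⟨-, h8⟩
      exact h7 (fun p hp => h8 p hp (mem_prb.1 hp).1.2.2.2)
  have h10 : ∑ q ∈ prb N b (1 / 8) (9 / 20), c3 N q *
      ((if ∀ p ∈ prb N b ε₁ (1 / 8), ¬ p ∣ n then (1 : ℝ) else 0) * (if q ∣ n then 1 else 0)) ≤
      ∑ q ∈ prb N b (1 / 8) (9 / 20), c3 N q *
        LL (prb N b ε₁ (1 / 8)) (tt N) (ind n) K true (ta3 N q) (za3 N q) q :=
    Finset.sum_le_sum fun q hq => mul_le_mul_of_nonneg_left (h2 q hq) (c3_nonneg q (prb_sub hq))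
  have h11 : Wb N b ε₁ n = (if ∀ p ∈ prb N b ε₁ (1 / 8), ¬ p ∣ n then (1 : ℝ) else 0) -
      ∑ q ∈ prb N b (1 / 8) (9 / 20), c3 N q *
      ((if ∀ p ∈ prb N b ε₁ (1 / 8), ¬ p ∣ n then (1 : ℝ) else 0) * (if q ∣ n then 1 else 0)) := by
    unfold Wb
    rw [mul_sub, mul_one, Finset.mul_sum]
    congr 1
    apply Finset.sum_congr rfl
    intro q _
    ring
  rw [h11]
  linarith

theorem countL {N : ℕ} {A : Finset ℕ} (hA : ∀ p ∈ A, p.Prime ∧ p ≤ N) (L : ℤ × ℕ) (e : ℕ) :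
    ∑ p ∈ A, ind (lf L p).natAbs e =
      (A.card : ℝ) * (1 / (Nat.totient e : ℝ)) + DL (fA A) N L e := by
  classical
  unfold DL
  have h1 : ∑ p ∈ (Icc 1 N).filter (fun p : ℕ => p.Prime ∧ (e : ℤ) ∣ lf L p), fA A p =
      ∑ p ∈ A, ind (lf L p).natAbs e := by
    have h2 : ∑ p ∈ A, ind (lf L p).natAbs e =
        ∑ p ∈ A.filter (fun p : ℕ => (e : ℤ) ∣ lf L p), (1 : ℝ) := by
      rw [Finset.sum_filter]
      apply Finset.sum_congr rfl
      intro p _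
      unfold ind
      have : (e ∣ (lf L p).natAbs) ↔ ((e : ℤ) ∣ lf L p) := by
        rw [Int.natCast_dvd]
      simp only [this]
    rw [h2]
    symm
    have h3 : A.filter (fun p : ℕ => (e : ℤ) ∣ lf L p) ⊆
        (Icc 1 N).filter (fun p : ℕ => p.Prime ∧ (e : ℤ) ∣ lf L p) := by
      intro p hp
      rw [mem_filter] at hp
      rw [mem_filter, mem_Icc]
      have := hA p hp.1
      exact ⟨⟨this.1.pos, this.2⟩, this.1, hp.2⟩
    rw [← Finset.sum_subset h3]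
    · apply Finset.sum_congr rfl
      intro p hp
      rw [mem_filter] at hp
      unfold fA
      rw [if_pos hp.1]
    · intro p hp hpn
      rw [mem_filter] at hp hpn
      unfold fA
      rw [if_neg]
      intro h
      exact hpn ⟨h, hp.2.2⟩
  have h4 : ∑ p ∈ (Icc 1 N).filter Nat.Prime, fA A p = A.card := by
    have h5 : A ⊆ (Icc 1 N).filter Nat.Prime := by
      intro p hp
      have := hA p hp
      rw [mem_filter, mem_Icc]
      exact ⟨⟨this.1.pos, this.2⟩, this.1⟩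
    rw [← Finset.sum_subset h5]
    · have : ∑ p ∈ A, fA A p = ∑ p ∈ A, (1 : ℝ) := by
        apply Finset.sum_congr rfl
        intro p hp
        unfold fA
        rw [if_pos hp]
      rw [this]
      simp
    · intro p _ hpn
      unfold fA
      rw [if_neg hpn]
  rw [h1, h4]
  ring

theorem DL_one (f : ℕ → ℝ) (N : ℕ) (L : ℤ × ℕ) : DL f N L 1 = 0 := by
  unfold DL
  have : (Icc 1 N).filter (fun p : ℕ => p.Prime ∧ ((1 : ℕ) : ℤ) ∣ lf L p) =
      (Icc 1 N).filter Nat.Prime := by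
    apply Finset.filter_congr
    intro p _
    refine ⟨fun h => h.1, fun h => ⟨h, ?_⟩⟩
    push_cast
    exact one_dvd _
  rw [this]
  simp

/-- the recursion for the counting function of `A` -/
theorem LLL (hLN : St_LN) {N : ℕ} (hN : 2 ≤ N) {ε₁ : ℝ} {A : Finset ℕ}
    (hA : ∀ p ∈ A, p.Prime ∧ p ≤ N) (L : ℤ × ℕ) (K : ℕ) (b : Bool) (τ ζ : ℝ) (d : ℕ)
    (hd : ∀ p ∈ prb N L.2 ε₁ (1 / 8), tt N p < ζ → ¬ p ∣ d) :
    ∑ p ∈ A, LL (prb N L.2 ε₁ (1 / 8)) (tt N) (ind (lf L p).natAbs) K b τ ζ d =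
      (A.card : ℝ) * (1 / (Nat.totient d : ℝ) *
        MM (prb N L.2 ε₁ (1 / 8)) (tt N) (fun p => 1 / ((p : ℝ) - 1)) K b τ ζ) +
      LL (prb N L.2 ε₁ (1 / 8)) (tt N) (DL (fA A) N L) K b τ ζ d := by
  rw [← hLN.1 (prb N L.2 ε₁ (1 / 8)) (tt N) A (fun p => ind (lf L p).natAbs) K b τ ζ d]
  have h1 : (fun e => ∑ p ∈ A, ind (lf L p).natAbs e) =
      (fun e => (A.card : ℝ) * (fun e : ℕ => 1 / (Nat.totient e : ℝ)) e + DL (fA A) N L e) := by
    funext e
    exact countL hA L e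
  rw [h1, hLN.2.1 (prb N L.2 ε₁ (1 / 8)) (tt N) (A.card : ℝ) (fun e : ℕ => 1 / (Nat.totient e : ℝ))
    (DL (fA A) N L) K b τ ζ d,
    hLN.2.2 (prb N L.2 ε₁ (1 / 8)) (tt N) (sizb hN _ _ _) (fun p => 1 / ((p : ℝ) - 1))
      (fun e : ℕ => 1 / (Nat.totient e : ℝ)) (tot_mul _ (sizb hN _ _ _).pr) K b τ ζ d hd]

open Classical in
/-- the moduli -/
noncomputable def mods (N b : ℕ) (θ ε : ℝ) : Finset ℕ :=
  (Icc 1 ⌊(N : ℝ) ^ θ⌋₊).filter (fun d => BX.Rough ((N : ℝ) ^ ε) d ∧ Nat.Coprime d b)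

/-- elements of `EE` -/
theorem mem_EEb {N b : ℕ} {u v τ ζ : ℝ} {e : ℕ} (h : e ∈ EE (prb N b u v) (tt N) τ ζ) :
    e ≠ 0 ∧ Squarefree e ∧ (∀ p ∈ e.primeFactors, u ≤ tt N p ∧ tt N p < v ∧ ¬ p ∣ b) ∧
      WFac (tt N) τ e := by
  classical
  unfold EE at h
  rw [mem_filter, mem_image] at h
  obtain ⟨⟨s, hs, rfl⟩, hw⟩ := h
  rw [mem_powerset] at hs
  have hp : ∀ p ∈ s, p ∈ prb N b u v := fun p hp => (mem_filter.1 (hs hp)).1
  have hpr : ∀ p ∈ s, p.Prime := fun p h => (mem_prb.1 (hp p h)).1.2.1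
  have h0 : ∏ p ∈ s, p ≠ 0 := Finset.prod_ne_zero_iff.2 fun p h => (hpr p h).ne_zero
  refine ⟨h0, ?_, ?_, hw⟩
  · exact (Finset.squarefree_prod_of_pairwise_isCoprime (fun p hp q hq hpq => by
      exact Nat.coprime_iff_isRelPrime.1 ((Nat.coprime_primes (hpr p hp) (hpr q hq)).2 hpq))
      (fun p h => (hpr p h).prime.squarefree))
  · intro p hp'
    rw [Nat.mem_primeFactors] at hp'
    obtain ⟨q, hq, hpq⟩ := (hp'.1.prime.dvd_finsetProd_iff _).1 hp'.2.1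
    have : p = q := (Nat.prime_dvd_prime_iff_eq hp'.1 (hpr q hq)).1 hpq
    rw [this]
    exact ⟨(mem_prb.1 (hp q hq)).1.2.2.1, (mem_prb.1 (hp q hq)).1.2.2.2, (mem_prb.1 (hp q hq)).2⟩

/-- size of a squarefree number -/
theorem sz_eq {N : ℕ} (hN : 2 ≤ N) {e : ℕ} (he : Squarefree e) (h0 : e ≠ 0) :
    (e : ℝ) = (N : ℝ) ^ sz (tt N) e := by
  have hN1 : (1 : ℝ) < N := by exact_mod_cast (by omega : 1 < N)
  have hN0 : (0 : ℝ) < N := by linarith
  have hL : Real.log N ≠ 0 := (Real.log_pos hN1).ne'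
  have h1 : (e : ℝ) = ∏ p ∈ e.primeFactors, (p : ℝ) := by
    conv_lhs => rw [← Nat.prod_primeFactors_of_squarefree he]
    push_cast
    rfl
  have h2 : sz (tt N) e = Real.log e / Real.log N := by
    unfold sz tt
    rw [h1, Real.log_prod (fun p hp => by
      have := (Nat.prime_of_mem_primeFactors hp).ne_zero
      exact_mod_cast this), Finset.sum_div]
  rw [h2]
  have he0 : (0 : ℝ) < e := by exact_mod_cast Nat.pos_of_ne_zero h0
  rw [Real.rpow_def_of_pos hN0, mul_div_cancel₀ _ hL, Real.exp_log he0]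

theorem mods_of {N : ℕ} (hN : 2 ≤ N) {b : ℕ} {ε₁ θ : ℝ} (hε : 0 < ε₁) {e : ℕ}
    (he : Squarefree e) (h1 : 1 < e) (hp : ∀ p ∈ e.primeFactors, ε₁ ≤ tt N p ∧ ¬ p ∣ b)
    (hs : sz (tt N) e ≤ θ) : e ∈ mods N b θ (ε₁ / 2) := by
  classical
  have hN1 : (1 : ℝ) < N := by exact_mod_cast (by omega : 1 < N)
  have h0 : e ≠ 0 := by omega
  unfold mods
  rw [mem_filter, mem_Icc]
  refine ⟨⟨h1.le, ?_⟩, ⟨h1, ?_⟩, ?_⟩
  · apply Nat.le_floor
    rw [sz_eq hN he h0]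
    exact Real.rpow_le_rpow_of_exponent_le hN1.le hs
  · intro p hpp hpe
    have h2 := (hp p (Nat.mem_primeFactors.2 ⟨hpp, hpe, h0⟩)).1
    have h3 := (le_tt_iff hN hpp.pos _).1 h2
    exact lt_of_lt_of_le (Real.rpow_lt_rpow_of_exponent_lt hN1 (by linarith)) h3
  · rw [Nat.coprime_iff_gcd_eq_one]
    by_contra h
    obtain ⟨p, hpp, hpd⟩ := Nat.exists_prime_and_dvd h
    exact (hp p (Nat.mem_primeFactors.2 ⟨hpp, hpd.trans (Nat.gcd_dvd_left _ _), h0⟩)).2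
      (hpd.trans (Nat.gcd_dvd_right _ _))

theorem sz_of_wfac {t : ℕ → ℝ} {τ : ℝ} (hτ : 0 ≤ τ) {e : ℕ} (he0 : e ≠ 0) (h : WFac t τ e)
    (ht : ∀ p ∈ e.primeFactors, 0 < t p) : sz t e ≤ τ := by
  obtain ⟨u, v, huv, hu, hv⟩ := h τ 0 hτ le_rfl (add_zero _)
  have hv0 : v ≠ 0 := by
    rintro rfl
    exact he0 (by rw [← huv, mul_zero])
  have hu0 : u ≠ 0 := by
    rintro rfl
    exact he0 (by rw [← huv, zero_mul])
  have h1 : v.primeFactors = ∅ := by
    by_contra hne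
    obtain ⟨p, hp⟩ := Finset.nonempty_iff_ne_empty.2 hne
    have h2 : p ∈ e.primeFactors := by
      rw [Nat.mem_primeFactors] at hp ⊢
      exact ⟨hp.1, hp.2.1.trans ⟨u, by rw [← huv, mul_comm]⟩, he0⟩
    have h3 : t p ≤ sz t v := by
      unfold sz
      apply Finset.single_le_sum (f := t) (fun q hq => ?_) hp
      have : q ∈ e.primeFactors := by
        rw [Nat.mem_primeFactors] at hq ⊢
        exact ⟨hq.1, hq.2.1.trans ⟨u, by rw [← huv, mul_comm]⟩, he0⟩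
      exact (ht q this).le
    have := ht p h2
    linarith
  have h2 : v = 1 := by
    rcases Nat.primeFactors_eq_empty.1 h1 with h | h
    · exact absurd h hv0
    · exact h
  rw [h2, mul_one] at huv
  rw [← huv]
  exact hu

/-- the first error term -/
theorem err1b {N : ℕ} (hN : 2 ≤ N) {ε₁ : ℝ} (hε : 0 < ε₁) (f : ℕ → ℝ) (L : ℤ × ℕ) :
    ∑ e ∈ EE (prb N L.2 ε₁ (1 / 8)) (tt N) (99 / 200) (1 / 8), |DL f N L (1 * e)| ≤
      ∑ d ∈ mods N L.2 (99 / 200) (ε₁ / 2), |DL f N L d| := by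
  classical
  have h1 : ∑ e ∈ EE (prb N L.2 ε₁ (1 / 8)) (tt N) (99 / 200) (1 / 8), |DL f N L (1 * e)| =
      ∑ e ∈ (EE (prb N L.2 ε₁ (1 / 8)) (tt N) (99 / 200) (1 / 8)).filter (fun e => 1 < e),
        |DL f N L e| := by
    rw [Finset.sum_filter]
    apply Finset.sum_congr rfl
    intro e he
    rw [one_mul]
    split_ifs with h
    · rfl
    · have h0 := (mem_EEb he).1
      have : e = 1 := by omega
      rw [this, DL_one, abs_zero]
  rw [h1]
  apply Finset.sum_le_sum_of_subset_of_nonneg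
  · intro e he
    rw [mem_filter] at he
    obtain ⟨h2, h3, h4, h5⟩ := mem_EEb he.1
    exact mods_of hN hε h3 he.2 (fun p hp => ⟨(h4 p hp).1, (h4 p hp).2.2⟩)
      (sz_of_wfac (by norm_num) h2 h5 (fun p hp => lt_of_lt_of_le hε (h4 p hp).1))
  · intro _ _ _
    exact abs_nonneg _

theorem sz_mul {t : ℕ → ℝ} {q e : ℕ} (hq : q.Prime) (hqe : ¬ q ∣ e) (he : e ≠ 0) :
    sz t (q * e) = t q + sz t e := by
  unfold sz
  rw [Nat.primeFactors_mul hq.ne_zero he, hq.primeFactors, Finset.sum_union, Finset.sum_singleton]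
  rw [Finset.disjoint_singleton_left]
  intro h
  exact hqe (Nat.mem_primeFactors.1 h).2.1

/-- the second error term -/
theorem err2b {N : ℕ} (hN : 2 ≤ N) {ε₁ : ℝ} (hε : 0 < ε₁) (hε2 : ε₁ ≤ 1 / 25)
    (f : ℕ → ℝ) (L : ℤ × ℕ) :
    ∑ q ∈ prb N L.2 (1 / 8) (9 / 20),
      ∑ e ∈ EE (prb N L.2 ε₁ (1 / 8)) (tt N) (ta3 N q) (za3 N q), |DL f N L (q * e)| ≤
      ∑ d ∈ mods N L.2 (99 / 200) (ε₁ / 2), |DL f N L d| := by
  classical
  rw [Finset.sum_sigma' (f := fun q e => |DL f N L (q * e)|)]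
  have hinj : Set.InjOn (fun x : (_ : ℕ) × ℕ => x.1 * x.2)
      ((prb N L.2 (1 / 8) (9 / 20)).sigma
        (fun q => EE (prb N L.2 ε₁ (1 / 8)) (tt N) (ta3 N q) (za3 N q)) :
          Finset ((_ : ℕ) × ℕ)) := by
    rintro ⟨q, e⟩ hqe ⟨q', e'⟩ hqe' heq
    rw [mem_coe, mem_sigma] at hqe hqe'
    simp only at hqe hqe' heq
    have hq := (mem_prb.1 hqe.1).1
    have hq' := (mem_prb.1 hqe'.1).1
    obtain ⟨h1, h2, h3, h4⟩ := mem_EEb hqe.2
    obtain ⟨h1', h2', h3', h4'⟩ := mem_EEb hqe'.2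
    have hqq : q = q' := by
      have hd : q ∣ q' * e' := heq ▸ Dvd.intro e rfl
      rcases (hq.2.1.dvd_mul).1 hd with h | h
      · exact (Nat.prime_dvd_prime_iff_eq hq.2.1 hq'.2.1).1 h
      · exfalso
        have := (h3' q (Nat.mem_primeFactors.2 ⟨hq.2.1, h, h1'⟩)).2.1
        linarith [hq.2.2.1]
    subst hqq
    have : e = e' := Nat.eq_of_mul_eq_mul_left hq.2.1.pos heq
    rw [this]
  calc ∑ x ∈ (prb N L.2 (1 / 8) (9 / 20)).sigma
        (fun q => EE (prb N L.2 ε₁ (1 / 8)) (tt N) (ta3 N q) (za3 N q)), |DL f N L (x.1 * x.2)|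
      = ∑ d ∈ ((prb N L.2 (1 / 8) (9 / 20)).sigma
        (fun q => EE (prb N L.2 ε₁ (1 / 8)) (tt N) (ta3 N q) (za3 N q))).image
          (fun x => x.1 * x.2), |DL f N L d| := by
        rw [Finset.sum_image hinj]
    _ ≤ _ := by
        apply Finset.sum_le_sum_of_subset_of_nonneg
        · intro d hd
          rw [mem_image] at hd
          obtain ⟨⟨q, e⟩, hqe, rfl⟩ := hd
          rw [mem_sigma] at hqe
          simp only at hqe ⊢
          obtain ⟨hq, hqb⟩ := mem_prb.1 hqe.1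
          obtain ⟨h1, h2, h3, h4⟩ := mem_EEb hqe.2
          have hqe' : ¬ q ∣ e := by
            intro h
            have := (h3 q (Nat.mem_primeFactors.2 ⟨hq.2.1, h, h1⟩)).2.1
            linarith [hq.2.2.1]
          have hcop : Nat.Coprime q e := (hq.2.1.coprime_iff_not_dvd).2 hqe'
          apply mods_of hN hε
          · exact (Nat.squarefree_mul hcop).2 ⟨hq.2.1.squarefree, h2⟩
          · have h5 := hq.2.1.one_lt
            have h6 : 1 ≤ e := Nat.pos_of_ne_zero h1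
            nlinarith
          · intro p hp
            rw [Nat.primeFactors_mul hq.2.1.ne_zero h1, mem_union, hq.2.1.primeFactors,
              mem_singleton] at hp
            rcases hp with rfl | hp
            · exact ⟨by linarith [hq.2.2.1], hqb⟩
            · exact ⟨(h3 p hp).1, (h3 p hp).2.2⟩
          · rw [sz_mul hq.2.1 hqe' h1]
            have h7 : sz (tt N) e ≤ ta3 N q := sz_of_wfac (by
              unfold ta3
              linarith [hq.2.2.2]) h1 h4 (fun p hp => lt_of_lt_of_le hε (h3 p hp).1)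
            unfold ta3 at h7
            linarith
        · intro _ _ _
          exact abs_nonneg _

theorem ta3_pos {N q : ℕ} {u : ℝ} (hq : q ∈ pr N u (9 / 20)) : 9 / 200 < ta3 N q := by
  have h := (mem_pr.1 hq).2.2.2
  unfold ta3
  linarith

theorem ta3_le {N q : ℕ} (hq : q ∈ pr N (1 / 8) (9 / 20)) : ta3 N q ≤ 3 * za3 N q := by
  have h := (mem_pr.1 hq).2.2.1
  have h0 := ta3_pos hq
  unfold za3
  rcases le_total (1 / 8) (ta3 N q) with h1 | h1
  · rw [min_eq_left h1]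
    unfold ta3
    linarith
  · rw [min_eq_right h1]
    linarith

theorem lowerWb (hPT : St_PT) (hLN : St_LN) (hER : St_ER) (hMI : St_MI) (hMT : St_MT)
    (hMP : St_MP) (hNU : St_NU3) (A0 : ℝ) (F f : ℝ → ℝ) (hS : SF A0 F f) :
    ∃ c₀ : ℝ, 0 < c₀ ∧ ∀ ε₁ : ℝ, 0 < ε₁ → ε₁ ≤ 1 / 25 → ∃ N₀ : ℕ, ∀ N : ℕ, N₀ ≤ N →
      ∀ A : Finset ℕ, (∀ p ∈ A, p.Prime ∧ p ≤ N) → ∀ L : ℤ × ℕ, 1 ≤ L.2 → L.2 ≤ N ^ 2 →
      c₀ * ε₁ * A.card - 3 * ∑ d ∈ mods N L.2 (99 / 200) (ε₁ / 2), |DL (fA A) N L d| ≤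
        ∑ p ∈ A, Wb N L.2 ε₁ (lf L p).natAbs := by
  classical
  set J : ℝ := 29 / 30 * (∫ x in (1 / 8 : ℝ)..(9 / 20),
      (1 - x / (9 / 20)) / (x * (99 / 200 - x))) with hJ
  set Z : ℝ := Real.log (74 / 25) / (99 / 200) with hZ
  have hJZ : J < Z := hNU
  set c₂ : ℝ := Z - J with hc₂
  have hc₂0 : 0 < c₂ := by rw [hc₂]; linarith
  have hA0 := hS.pos
  refine ⟨A0 * c₂ / 2, by positivity, ?_⟩
  intro ε₁ hε hε2
  obtain ⟨η, hη0, HM⟩ := hMT A0 F f hS ε₁ (ε₁ * A0 * c₂ / 32) ⌈1 / ε₁⌉₊ hε (by linarith)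
    (by positivity)
  obtain ⟨N₁, hN₁⟩ := merb hMP ε₁ (1 / 8) η hε (by norm_num) hη0
  obtain ⟨N₂, hN₂⟩ := QS3 hMI hMP (c₂ / 4) (by positivity)
  obtain ⟨N₃, hN₃⟩ := hMP (1 / 8) 1 (by norm_num) one_pos
  refine ⟨max (max N₁ N₂) (max N₃ 2), ?_⟩
  intro N hN A hA L hb1 hb2
  have hNN₁ : N₁ ≤ N := ((le_max_left _ _).trans (le_max_left _ _)).trans hN
  have hNN₂ : N₂ ≤ N := ((le_max_right _ _).trans (le_max_left _ _)).trans hN
  have hNN₃ : N₃ ≤ N := ((le_max_left _ _).trans (le_max_right _ _)).trans hN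
  have hN2 : 2 ≤ N := ((le_max_right _ _).trans (le_max_right _ _)).trans hN
  set P := prb N L.2 ε₁ (1 / 8) with hP
  set Q := prb N L.2 (1 / 8) (9 / 20) with hQ
  set g : ℕ → ℝ := fun p => 1 / ((p : ℝ) - 1) with hg
  set K := ⌈1 / ε₁⌉₊ with hK
  set r := DL (fA A) N L with hr
  set R := ∑ d ∈ mods N L.2 (99 / 200) (ε₁ / 2), |r d| with hR
  have hR0 : 0 ≤ R := Finset.sum_nonneg fun _ _ => abs_nonneg _
  have hQpr : ∀ q ∈ Q, q ∈ pr N (1 / 8) (9 / 20) := fun q hq => prb_sub hq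
  have hKε : 1 ≤ (K + 2) * ε₁ := by
    have h1 : 1 / ε₁ ≤ K := Nat.le_ceil _
    have h2 : 1 / ε₁ * ε₁ = 1 := by field_simp
    nlinarith
  have HM' := HM P (tt N) g (1 / 8) (by norm_num) (fun p hp => g_nonneg p (prb_sub hp))
    (fun p hp => (mem_prb.1 hp).1.2.2.1) (hN₁ N hNN₁ L.2 hb1 hb2) K le_rfl
  -- the main terms
  have hminus : ε₁ * A0 * Z - ε₁ * A0 * c₂ / 32 ≤ MM P (tt N) g K false (99 / 200) (1 / 8) := by
    have h1 := (HM' (99 / 200) (1 / 8) (by linarith) (by linarith) le_rfl (by norm_num)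
      (by norm_num)).2 (by norm_num)
    have h2 : ε₁ / (1 / 8) * f (99 / 200 / (1 / 8)) = ε₁ * A0 * Z := by
      rw [hS.f4 _ (by norm_num) (by norm_num), hZ]
      have : (99 / 200 / (1 / 8) - 1 : ℝ) = 74 / 25 := by norm_num
      rw [this]
      ring
    rw [h2] at h1
    exact h1
  have hplus : ∀ q ∈ Q, MM P (tt N) g K true (ta3 N q) (za3 N q) ≤
      ε₁ * A0 / ta3 N q + ε₁ * A0 * c₂ / 32 := by
    intro q hq
    have h0 := ta3_pos (hQpr q hq)
    have h1 := ta3_le (hQpr q hq)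
    have h2 : za3 N q ≤ ta3 N q := min_le_right _ _
    have h3 : ε₁ ≤ za3 N q := le_min (by linarith) (by linarith)
    have h4 : ta3 N q ≤ 1 := by
      have := (mem_prb.1 hq).1.2.2.1
      unfold ta3
      linarith
    have h5 := (HM' (ta3 N q) (za3 N q) (by linarith) h3 (min_le_left _ _) h2 h4).1
    have h6 : 0 < za3 N q := by linarith
    have h7 : ε₁ / za3 N q * F (ta3 N q / za3 N q) = ε₁ * A0 / ta3 N q := by
      rw [hS.F3 _ ((one_le_div h6).2 h2) ((div_le_iff₀ h6).2 h1)]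
      field_simp
    rw [h7] at h5
    exact h5
  -- the recursion, summed over `A`
  have e1 := LLL hLN hN2 (ε₁ := ε₁) hA L K false (99 / 200) (1 / 8) 1
    (fun p hp _ h => (mem_prb.1 hp).1.2.1.one_lt.ne' (Nat.dvd_one.1 h))
  have e2 : ∀ q ∈ Q, ∑ p ∈ A, LL P (tt N) (ind (lf L p).natAbs) K true (ta3 N q) (za3 N q) q =
      (A.card : ℝ) * (1 / ((q : ℝ) - 1) * MM P (tt N) g K true (ta3 N q) (za3 N q)) +
        LL P (tt N) r K true (ta3 N q) (za3 N q) q := by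
    intro q hq
    have h1 := LLL hLN hN2 (ε₁ := ε₁) hA L K true (ta3 N q) (za3 N q) q (fun p hp _ h => by
      have h4 := (Nat.prime_dvd_prime_iff_eq (mem_prb.1 hp).1.2.1 (mem_prb.1 hq).1.2.1).1 h
      have h5 := (mem_prb.1 hp).1.2.2.2
      have h6 := (mem_prb.1 hq).1.2.2.1
      rw [h4] at h5
      linarith)
    have h2 : ((Nat.totient q : ℕ) : ℝ) = (q : ℝ) - 1 := by
      rw [Nat.totient_prime (mem_prb.1 hq).1.2.1]
      have : 1 ≤ q := (mem_prb.1 hq).1.2.1.pos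
      push_cast [Nat.cast_sub this]
      rfl
    rw [h2] at h1
    exact h1
  have hsum : ∑ p ∈ A, (LL P (tt N) (ind (lf L p).natAbs) K false (99 / 200) (1 / 8) 1 -
      ∑ q ∈ Q, c3 N q * LL P (tt N) (ind (lf L p).natAbs) K true (ta3 N q) (za3 N q) q) ≤
      ∑ p ∈ A, Wb N L.2 ε₁ (lf L p).natAbs :=
    Finset.sum_le_sum fun p _ => Wb_ge hPT hN2 L.2 K _
  rw [Finset.sum_sub_distrib, Finset.sum_comm] at hsum
  have e3 : ∑ q ∈ Q, ∑ p ∈ A, c3 N q *
      LL P (tt N) (ind (lf L p).natAbs) K true (ta3 N q) (za3 N q) q =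
      ∑ q ∈ Q, c3 N q * ((A.card : ℝ) * (1 / ((q : ℝ) - 1) *
        MM P (tt N) g K true (ta3 N q) (za3 N q)) + LL P (tt N) r K true (ta3 N q) (za3 N q) q) := by
    apply Finset.sum_congr rfl
    intro q hq
    rw [← Finset.mul_sum, e2 q hq]
  rw [e3, e1] at hsum
  -- the errors
  have hE1 : |LL P (tt N) r K false (99 / 200) (1 / 8) 1| ≤ R :=
    (hER P (tt N) (sizb hN2 _ _ _) r K false (99 / 200) (1 / 8) 1 (by norm_num)
      (fun _ => by norm_num)).trans (err1b hN2 hε (fA A) L)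
  have hE2 : ∑ q ∈ Q, c3 N q * LL P (tt N) r K true (ta3 N q) (za3 N q) q ≤ 29 / 30 * R := by
    calc ∑ q ∈ Q, c3 N q * LL P (tt N) r K true (ta3 N q) (za3 N q) q
        ≤ ∑ q ∈ Q, 29 / 30 * ∑ e ∈ EE P (tt N) (ta3 N q) (za3 N q), |r (q * e)| := by
          apply Finset.sum_le_sum
          intro q hq
          have h1 := hER P (tt N) (sizb hN2 _ _ _) r K true (ta3 N q) (za3 N q) q
            (by have := ta3_pos (hQpr q hq); linarith) (fun h => by simp at h)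
          have h2 := c3_nonneg q (hQpr q hq)
          have h3 := c3_le hN2 q (hQpr q hq)
          calc c3 N q * LL P (tt N) r K true (ta3 N q) (za3 N q) q
              ≤ c3 N q * |LL P (tt N) r K true (ta3 N q) (za3 N q) q| :=
                mul_le_mul_of_nonneg_left (le_abs_self _) h2
            _ ≤ 29 / 30 * ∑ e ∈ EE P (tt N) (ta3 N q) (za3 N q), |r (q * e)| :=
                mul_le_mul h3 h1 (abs_nonneg _) (by norm_num)
      _ = 29 / 30 * ∑ q ∈ Q, ∑ e ∈ EE P (tt N) (ta3 N q) (za3 N q), |r (q * e)| := by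
          rw [Finset.mul_sum]
      _ ≤ 29 / 30 * R := mul_le_mul_of_nonneg_left (err2b hN2 hε hε2 (fA A) L) (by norm_num)
  -- the sum over `q`
  have hq1 : ∑ q ∈ Q, g q * (c3 N q / ta3 N q) ≤ J + c₂ / 4 := by
    have h1 := hN₂ N hNN₂
    refine le_trans ?_ h1
    calc ∑ q ∈ Q, g q * (c3 N q / ta3 N q)
        ≤ ∑ q ∈ pr N (1 / 8) (9 / 20), g q * (c3 N q / ta3 N q) := by
          apply Finset.sum_le_sum_of_subset_of_nonneg
          · intro q hq
            exact hQpr q hq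
          · intro q hq _
            have h2 := c3_nonneg q hq
            have h3 := ta3_pos hq
            have h4 : 0 ≤ g q := g_nonneg q hq
            have h5 : 0 < ta3 N q := by linarith
            positivity
      _ = _ := by
          simp only [hg, ta3]
  have hq2 : ∑ q ∈ Q, g q ≤ 3 := by
    have h1 := (abs_le.1 (hN₃ N hNN₃ (1 / 8) (9 / 20) le_rfl (by norm_num) (by norm_num))).2
    have h2 : Real.log (9 / 20 / (1 / 8)) ≤ 2 := by
      rw [Real.log_le_iff_le_exp (by norm_num)]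
      have h3 := Real.add_one_le_exp (1 : ℝ)
      have h4 : Real.exp 2 = Real.exp 1 * Real.exp 1 := by
        rw [← Real.exp_add]
        norm_num
      nlinarith
    have h3 : ∑ q ∈ Q, g q ≤ ∑ q ∈ pr N (1 / 8) (9 / 20), g q :=
      Finset.sum_le_sum_of_subset_of_nonneg (fun q hq => hQpr q hq)
        (fun q hq _ => g_nonneg q hq)
    simp only [hg] at h3 ⊢
    linarith
  have hq3 : ∑ q ∈ Q, c3 N q * ((A.card : ℝ) * (1 / ((q : ℝ) - 1) *
        MM P (tt N) g K true (ta3 N q) (za3 N q))) ≤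
      (A.card : ℝ) * (ε₁ * A0 * (J + c₂ / 4) + ε₁ * A0 * c₂ / 32 * (29 / 30 * 3)) := by
    calc ∑ q ∈ Q, c3 N q * ((A.card : ℝ) * (1 / ((q : ℝ) - 1) *
          MM P (tt N) g K true (ta3 N q) (za3 N q)))
        ≤ ∑ q ∈ Q, (A.card : ℝ) * (ε₁ * A0 * (g q * (c3 N q / ta3 N q)) +
            ε₁ * A0 * c₂ / 32 * (29 / 30 * g q)) := by
          apply Finset.sum_le_sum
          intro q hq
          have h1 := hplus q hq
          have h2 := c3_nonneg q (hQpr q hq)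
          have h3 := c3_le hN2 q (hQpr q hq)
          have h4 : 0 ≤ g q := g_nonneg q (hQpr q hq)
          have h5 := ta3_pos (hQpr q hq)
          have h6 : (0 : ℝ) ≤ A.card := Nat.cast_nonneg _
          have h7 : c3 N q * (g q * MM P (tt N) g K true (ta3 N q) (za3 N q)) ≤
              ε₁ * A0 * (g q * (c3 N q / ta3 N q)) + ε₁ * A0 * c₂ / 32 * (29 / 30 * g q) := by
            calc c3 N q * (g q * MM P (tt N) g K true (ta3 N q) (za3 N q))
                ≤ c3 N q * (g q * (ε₁ * A0 / ta3 N q + ε₁ * A0 * c₂ / 32)) := by gcongr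
              _ = ε₁ * A0 * (g q * (c3 N q / ta3 N q)) +
                  ε₁ * A0 * c₂ / 32 * (c3 N q * g q) := by ring
              _ ≤ _ := by gcongr
          calc c3 N q * ((A.card : ℝ) * (1 / ((q : ℝ) - 1) *
                MM P (tt N) g K true (ta3 N q) (za3 N q)))
              = (A.card : ℝ) * (c3 N q * (g q * MM P (tt N) g K true (ta3 N q) (za3 N q))) := by
                simp only [hg]
                ring
            _ ≤ _ := mul_le_mul_of_nonneg_left h7 h6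
      _ = (A.card : ℝ) * (ε₁ * A0 * (∑ q ∈ Q, g q * (c3 N q / ta3 N q)) +
            ε₁ * A0 * c₂ / 32 * (29 / 30 * ∑ q ∈ Q, g q)) := by
          rw [← Finset.mul_sum, Finset.sum_add_distrib, ← Finset.mul_sum, ← Finset.mul_sum,
            ← Finset.mul_sum]
      _ ≤ _ := by
          have h1 : 0 ≤ ε₁ * A0 := by positivity
          have h2 : 0 ≤ ε₁ * A0 * c₂ / 32 := by positivity
          gcongr
  have e4 : ∑ q ∈ Q, c3 N q * ((A.card : ℝ) * (1 / ((q : ℝ) - 1) *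
        MM P (tt N) g K true (ta3 N q) (za3 N q)) + LL P (tt N) r K true (ta3 N q) (za3 N q) q) =
      ∑ q ∈ Q, c3 N q * ((A.card : ℝ) * (1 / ((q : ℝ) - 1) *
        MM P (tt N) g K true (ta3 N q) (za3 N q))) +
      ∑ q ∈ Q, c3 N q * LL P (tt N) r K true (ta3 N q) (za3 N q) q := by
    rw [← Finset.sum_add_distrib]
    apply Finset.sum_congr rfl
    intro q _
    ring
  rw [e4] at hsum
  have hA6 : (0 : ℝ) ≤ A.card := Nat.cast_nonneg _
  have hmain : (A.card : ℝ) * (ε₁ * A0 * Z - ε₁ * A0 * c₂ / 32) ≤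
      (A.card : ℝ) * (1 / ((Nat.totient 1 : ℕ) : ℝ) *
        MM P (tt N) g K false (99 / 200) (1 / 8)) := by
    apply mul_le_mul_of_nonneg_left _ hA6
    rw [Nat.totient_one]
    norm_num
    linarith
  have hE1' := (abs_le.1 hE1).1
  have hfin : A0 * c₂ / 2 * ε₁ * A.card ≤
      (A.card : ℝ) * (ε₁ * A0 * Z - ε₁ * A0 * c₂ / 32) -
      (A.card : ℝ) * (ε₁ * A0 * (J + c₂ / 4) + ε₁ * A0 * c₂ / 32 * (29 / 30 * 3)) := by
    have h1 : (A.card : ℝ) * (ε₁ * A0 * Z - ε₁ * A0 * c₂ / 32) -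
      (A.card : ℝ) * (ε₁ * A0 * (J + c₂ / 4) + ε₁ * A0 * c₂ / 32 * (29 / 30 * 3)) =
        (A.card : ℝ) * (ε₁ * A0 * c₂) * (1 - 1 / 32 - 1 / 4 - 29 / 320) := by
      rw [hc₂]
      ring
    rw [h1]
    have h2 : 0 ≤ (A.card : ℝ) * (ε₁ * A0 * c₂) := by positivity
    nlinarith
  linarith

end Pool.Agent.W23.SG
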