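import Pool.Agent.W23.SG.Fin1
import Pool.Agent.W23.SG.Fin2

/-!
SG project (helper23): sets of primes and almost prime values of linear forms.
-/

namespace Pool.Agent.W23.SG

open Finset Filter
open Pool.Agent.H442R2
open Pool.Agent.H442R2.KF
open Pool.Agent.W23.DC

theorem Wb_le_one {N b : ℕ} {ε₁ : ℝ} (n : ℕ) : Wb N b ε₁ n ≤ 1 := by
  classical
  unfold Wb
  have h1 : 0 ≤ ∑ q ∈ prb N b (1 / 8) (9 / 20), c3 N q * (if q ∣ n then 1 else 0) := by
    apply Finset.sum_nonneg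
    intro q hq
    have := c3_nonneg q (prb_sub hq)
    split_ifs <;> simp [this]
  split_ifs <;> linarith

theorem sum_le_posb {N b : ℕ} {ε₁ : ℝ} (A : Finset ℕ) (n : ℕ → ℕ) :
    ∑ p ∈ A, Wb N b ε₁ (n p) ≤ ((A.filter (fun p => 0 < Wb N b ε₁ (n p))).card : ℝ) := by
  classical
  rw [← Finset.sum_filter_add_sum_filter_not A (fun p => 0 < Wb N b ε₁ (n p))]
  have h1 : ∑ p ∈ A.filter (fun p => ¬ 0 < Wb N b ε₁ (n p)), Wb N b ε₁ (n p) ≤ 0 := by
    apply Finset.sum_nonpos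
    intro p hp
    exact not_lt.1 (mem_filter.1 hp).2
  have h2 : ∑ p ∈ A.filter (fun p => 0 < Wb N b ε₁ (n p)), Wb N b ε₁ (n p) ≤
      ((A.filter (fun p => 0 < Wb N b ε₁ (n p))).card : ℝ) := by
    calc _ ≤ ∑ p ∈ A.filter (fun p => 0 < Wb N b ε₁ (n p)), (1 : ℝ) :=
          Finset.sum_le_sum fun p _ => Wb_le_one _
      _ = _ := by simp
  linarith

/-- the structure of `n` -/
theorem structb : ∃ N₀ : ℕ, ∀ N : ℕ, N₀ ≤ N → ∀ (b : ℕ) (ε₁ : ℝ) (n : ℕ), n ≠ 0 →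
    (n : ℝ) ≤ 2 * (N : ℝ) ^ (4 / 3 : ℝ) → 0 < Wb N b ε₁ n →
    (∀ q : ℕ, q.Prime → (N : ℝ) ^ (1 / 8 : ℝ) ≤ q → ¬ q ^ 2 ∣ n) →
    (∀ q : ℕ, q.Prime → q ∣ n → ¬ q ∣ b) →
    ∃ m s : ℕ, n = m * s ∧ (∀ l : ℕ, l.Prime → l ∣ m → (l : ℝ) < (N : ℝ) ^ ε₁) ∧
      s.primeFactorsList.length ≤ 3 ∧ ∀ q ∈ s.primeFactors, (N : ℝ) ^ (1 / 8 : ℝ) ≤ q := by
  classical
  obtain ⟨N₀, hN₀⟩ : ∃ N₀ : ℕ, ∀ N : ℕ, N₀ ≤ N → 1000 ≤ Real.log (N : ℝ) := by
    have := (Real.tendsto_log_atTop.comp (tendsto_natCast_atTop_atTop (R := ℝ))).eventually_ge_atTop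
      1000
    exact Filter.eventually_atTop.1 this
  refine ⟨max N₀ 2, ?_⟩
  intro N hN b ε₁ n hn0 hn2 hW hsq hnb
  have hN2 : 2 ≤ N := (le_max_right _ _).trans hN
  have hlog := hN₀ N ((le_max_left _ _).trans hN)
  have hN1 : (1 : ℝ) ≤ N := by exact_mod_cast (by omega : 1 ≤ N)
  have hN0 : (0 : ℝ) < N := by linarith
  -- the sieve condition
  have hI : ∀ p ∈ prb N b ε₁ (1 / 8), ¬ p ∣ n := by
    by_contra h
    unfold Wb at hW
    rw [if_neg h, zero_mul] at hW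
    exact lt_irrefl _ hW
  have hS1 : ∑ q ∈ prb N b (1 / 8) (9 / 20), c3 N q * (if q ∣ n then 1 else 0) < 1 := by
    unfold Wb at hW
    rw [if_pos hI, one_mul] at hW
    linarith
  -- the large prime factors
  set S : Finset ℕ := n.primeFactors.filter (fun q => (N : ℝ) ^ (1 / 8 : ℝ) ≤ q) with hS
  have hSp : ∀ q ∈ S, q.Prime ∧ q ∣ n ∧ (N : ℝ) ^ (1 / 8 : ℝ) ≤ q := by
    intro q hq
    rw [hS, mem_filter, Nat.mem_primeFactors] at hq
    exact ⟨hq.1.1, hq.1.2.1, hq.2⟩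
  set s : ℕ := ∏ q ∈ S, q with hs
  have hsn : s ∣ n :=
    Finset.prod_primes_dvd n (fun q hq => (hSp q hq).1.prime) (fun q hq => (hSp q hq).2.1)
  have hs0 : s ≠ 0 := Finset.prod_ne_zero_iff.2 fun q hq => (hSp q hq).1.ne_zero
  have hspf : s.primeFactors = S := by
    rw [hs]
    exact Nat.primeFactors_prod fun q hq => (hSp q hq).1
  have hssq : Squarefree s := by
    rw [hs]
    exact Finset.squarefree_prod_of_pairwise_isCoprime (fun p hp q hq hpq => by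
      exact Nat.coprime_iff_isRelPrime.1
        ((Nat.coprime_primes (hSp p hp).1 (hSp q hq).1).2 hpq))
      (fun p h => (hSp p h).1.prime.squarefree)
  obtain ⟨m, hm⟩ := hsn
  have hm0 : m ≠ 0 := by
    rintro rfl
    exact hn0 (by rw [hm, mul_zero])
  refine ⟨m, s, by rw [hm, mul_comm], ?_, ?_, ?_⟩
  · intro l hl hlm
    by_contra hge
    rw [not_lt] at hge
    have hln : l ∣ n := hm ▸ (hlm.mul_left s)
    rcases lt_or_ge (l : ℝ) ((N : ℝ) ^ (1 / 8 : ℝ)) with h1 | h1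
    · refine hI l (mem_prb.2 ⟨⟨⟨hl.pos, ?_⟩, hl, ?_, ?_⟩, hnb l hl hln⟩) hln
      · have h2 : (N : ℝ) ^ (1 / 8 : ℝ) ≤ N := by
          calc (N : ℝ) ^ (1 / 8 : ℝ) ≤ (N : ℝ) ^ (1 : ℝ) :=
                Real.rpow_le_rpow_of_exponent_le hN1 (by norm_num)
            _ = N := Real.rpow_one _
        exact_mod_cast (h1.le.trans h2)
      · exact (le_tt_iff hN2 hl.pos _).2 hge
      · exact (tt_lt_iff hN2 hl.pos _).2 h1
    · have hlS : l ∈ S := by
        rw [hS, mem_filter, Nat.mem_primeFactors]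
        exact ⟨⟨hl, hln, hn0⟩, h1⟩
      have hls : l ∣ s := Finset.dvd_prod_of_mem _ hlS
      apply hsq l hl h1
      rw [hm, sq]
      exact mul_dvd_mul hls hlm
  · -- at most three large primes
    have hcard : s.primeFactorsList.length = S.card := by
      rw [← ArithmeticFunction.cardFactors_apply,
        ← (ArithmeticFunction.cardDistinctFactors_eq_cardFactors_iff_squarefree hs0).2 hssq,
        ArithmeticFunction.cardDistinctFactors_apply, ← hspf]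
      rfl
    rw [hcard]
    by_contra hgt
    have h3 : (4 : ℝ) ≤ S.card := by exact_mod_cast (by omega : 4 ≤ S.card)
    -- sum of sizes
    have hsz : ∑ q ∈ S, tt N q ≤ 4 / 3 + 1 / 1000 := by
      unfold tt
      rw [← Finset.sum_div, ← Real.log_prod (fun q hq => by
        have := (hSp q hq).1.ne_zero
        exact_mod_cast this), div_le_iff₀ (by linarith)]
      have h4 : (∏ q ∈ S, (q : ℝ)) = (s : ℝ) := by rw [hs]; push_cast; rfl
      rw [h4]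
      have h5 : (s : ℝ) ≤ 2 * (N : ℝ) ^ (4 / 3 : ℝ) := by
        have : s ≤ n := Nat.le_of_dvd (Nat.pos_of_ne_zero hn0) ⟨m, hm⟩
        exact le_trans (by exact_mod_cast this) hn2
      have h6 : Real.log s ≤ Real.log (2 * (N : ℝ) ^ (4 / 3 : ℝ)) :=
        Real.log_le_log (by exact_mod_cast Nat.pos_of_ne_zero hs0) h5
      rw [Real.log_mul (by norm_num) (by positivity), Real.log_rpow hN0] at h6
      have h7 := Real.log_two_lt_d9
      nlinarith
    have h8 : ∑ q ∈ S, c3 N q = 29 / 30 * (S.card - 20 / 9 * ∑ q ∈ S, tt N q) := by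
      unfold c3
      rw [← Finset.mul_sum, Finset.sum_sub_distrib, Finset.sum_const, nsmul_eq_mul, mul_one,
        ← Finset.sum_div]
      ring
    have h9 : ∑ q ∈ S, c3 N q ≤
        ∑ q ∈ prb N b (1 / 8) (9 / 20), c3 N q * (if q ∣ n then 1 else 0) := by
      have h10 : ∑ q ∈ S, c3 N q ≤ ∑ q ∈ S.filter (fun q => tt N q < 9 / 20), c3 N q := by
        rw [← Finset.sum_filter_add_sum_filter_not S (fun q => tt N q < 9 / 20)]
        have : ∑ q ∈ S.filter (fun q => ¬ tt N q < 9 / 20), c3 N q ≤ 0 := by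
          apply Finset.sum_nonpos
          intro q hq
          have h11 := not_lt.1 (mem_filter.1 hq).2
          unfold c3
          have : 1 ≤ tt N q / (9 / 20) := by
            rw [one_le_div (by norm_num)]
            exact h11
          nlinarith
        linarith
      refine h10.trans ?_
      have h12 : ∑ q ∈ S.filter (fun q => tt N q < 9 / 20), c3 N q =
          ∑ q ∈ S.filter (fun q => tt N q < 9 / 20), c3 N q * (if q ∣ n then 1 else 0) := by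
        apply Finset.sum_congr rfl
        intro q hq
        rw [if_pos (hSp q (mem_filter.1 hq).1).2.1, mul_one]
      rw [h12]
      apply Finset.sum_le_sum_of_subset_of_nonneg
      · intro q hq
        rw [mem_filter] at hq
        obtain ⟨h13, h14, h15⟩ := hSp q hq.1
        refine mem_prb.2 ⟨⟨⟨h13.pos, ?_⟩, h13, (le_tt_iff hN2 h13.pos _).2 h15, hq.2⟩,
          hnb q h13 h14⟩
        have h16 := (tt_lt_iff hN2 h13.pos _).1 hq.2
        have h2 : (N : ℝ) ^ (9 / 20 : ℝ) ≤ N := by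
          calc (N : ℝ) ^ (9 / 20 : ℝ) ≤ (N : ℝ) ^ (1 : ℝ) :=
                Real.rpow_le_rpow_of_exponent_le hN1 (by norm_num)
            _ = N := Real.rpow_one _
        exact_mod_cast (h16.le.trans h2)
      · intro q hq _
        have := c3_nonneg q (prb_sub hq)
        split_ifs <;> simp [this]
    rw [h8] at h9
    nlinarith
  · intro q hq
    rw [hspf] at hq
    exact (hSp q hq).2.2

open Classical in
/-- one class modulo `m` -/
theorem one_class {N m : ℕ} (hm : 1 ≤ m) (A : Finset ℕ) (hA : ∀ p ∈ A, p ≤ N) (L : ℤ × ℕ)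
    (hc : Nat.Coprime m L.2) :
    ((A.filter (fun p : ℕ => (m : ℤ) ∣ lf L p)).card : ℝ) ≤ N / m + 1 := by
  have h1 : (A.filter (fun p : ℕ => (m : ℤ) ∣ lf L p)).card ≤ (range (N / m + 1)).card := by
    apply Finset.card_le_card_of_injOn (fun p => p / m)
    · intro p hp
      rw [Finset.mem_coe, mem_filter] at hp
      rw [Finset.mem_coe, mem_range]
      have := Nat.div_le_div_right (c := m) (hA p hp.1)
      simp only
      omega
    · intro p hp q hq hpq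
      rw [Finset.mem_coe, mem_filter] at hp hq
      simp only at hpq
      have h2 : (m : ℤ) ∣ (L.2 : ℤ) * ((p : ℤ) - q) := by
        have h3 := dvd_sub hp.2 hq.2
        have h4 : lf L p - lf L q = (L.2 : ℤ) * ((p : ℤ) - q) := by
          unfold lf
          ring
        rw [h4] at h3
        exact h3
      have h5 : (m : ℤ) ∣ (p : ℤ) - q := by
        have hc' : IsCoprime (m : ℤ) (L.2 : ℤ) := Nat.isCoprime_iff_coprime.2 hc
        exact hc'.dvd_of_dvd_mul_left h2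
      have h6 := Nat.div_add_mod p m
      have h7 := Nat.div_add_mod q m
      have h8 := Nat.mod_lt p hm
      have h9 := Nat.mod_lt q hm
      rw [hpq] at h6
      have h10 : |(p : ℤ) - q| < m := by
        rw [abs_lt]
        constructor <;> omega
      have h11 : (p : ℤ) - q = 0 := Int.eq_zero_of_abs_lt_dvd h5 h10
      omega
  rw [card_range] at h1
  have h2 : ((N / m : ℕ) : ℝ) ≤ N / m := Nat.cast_div_le
  have h3 : ((A.filter (fun p : ℕ => (m : ℤ) ∣ lf L p)).card : ℝ) ≤ ((N / m : ℕ) : ℝ) + 1 := by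
    exact_mod_cast h1
  linarith

open Classical in
/-- primes `p` such that `L(p)` is divisible by the square of a large prime -/
theorem squaresb {N : ℕ} (hN : 2 ≤ N) (A : Finset ℕ) (hA : ∀ p ∈ A, p ≤ N) (L : ℤ × ℕ)
    (hg : Int.gcd L.1 L.2 = 1)
    (hL : ∀ p ∈ A, ((lf L p).natAbs : ℝ) ≤ 2 * (N : ℝ) ^ (4 / 3 : ℝ)) :
    ((A.filter (fun p : ℕ => lf L p ≠ 0 ∧ ∃ q : ℕ, q.Prime ∧ (N : ℝ) ^ (1 / 8 : ℝ) ≤ q ∧
      q ^ 2 ∣ (lf L p).natAbs)).card : ℝ) ≤ 5 * (N : ℝ) ^ (7 / 8 : ℝ) := by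
  have hN1 : (1 : ℝ) ≤ N := by exact_mod_cast (by omega : 1 ≤ N)
  have hN0 : (0 : ℝ) < N := by linarith
  have hy1 : (1 : ℝ) ≤ (N : ℝ) ^ (1 / 8 : ℝ) := Real.one_le_rpow hN1 (by norm_num)
  obtain ⟨k, hk⟩ : ∃ k : ℕ, k + 1 = ⌈(N : ℝ) ^ (1 / 8 : ℝ)⌉₊ := by
    have : 0 < ⌈(N : ℝ) ^ (1 / 8 : ℝ)⌉₊ := Nat.ceil_pos.2 (by linarith)
    exact ⟨⌈(N : ℝ) ^ (1 / 8 : ℝ)⌉₊ - 1, by omega⟩
  set M : ℕ := ⌊3 / 2 * (N : ℝ) ^ (2 / 3 : ℝ)⌋₊ with hM
  have hsub : A.filter (fun p : ℕ => lf L p ≠ 0 ∧ ∃ q : ℕ, q.Prime ∧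
      (N : ℝ) ^ (1 / 8 : ℝ) ≤ q ∧ q ^ 2 ∣ (lf L p).natAbs) ⊆
      ((Ioo k (M + 1)).filter (fun q => Nat.Coprime (q ^ 2) L.2)).biUnion (fun q =>
        A.filter (fun p : ℕ => ((q ^ 2 : ℕ) : ℤ) ∣ lf L p)) := by
    intro p hp
    rw [mem_filter] at hp
    obtain ⟨hpA, hpa, q, hq, hqN, hqd⟩ := hp
    rw [mem_biUnion]
    refine ⟨q, ?_, ?_⟩
    · rw [mem_filter, mem_Ioo]
      refine ⟨⟨?_, ?_⟩, ?_⟩
      · have : ⌈(N : ℝ) ^ (1 / 8 : ℝ)⌉₊ ≤ q := Nat.ceil_le.2 hqN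
        omega
      · have h0 : (lf L p).natAbs ≠ 0 := by
          rw [Ne, Int.natAbs_eq_zero]
          exact hpa
        have h1 : q ^ 2 ≤ (lf L p).natAbs := Nat.le_of_dvd (Nat.pos_of_ne_zero h0) hqd
        have h2 : (q : ℝ) ^ 2 ≤ 2 * (N : ℝ) ^ (4 / 3 : ℝ) :=
          le_trans (by exact_mod_cast h1) (hL p hpA)
        have h3 : (q : ℝ) ≤ 3 / 2 * (N : ℝ) ^ (2 / 3 : ℝ) := by
          have h4 : (N : ℝ) ^ (4 / 3 : ℝ) = ((N : ℝ) ^ (2 / 3 : ℝ)) ^ 2 := by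
            rw [← Real.rpow_natCast, ← Real.rpow_mul hN0.le]
            norm_num
          rw [h4] at h2
          have h5 : 0 ≤ (N : ℝ) ^ (2 / 3 : ℝ) := by positivity
          by_contra hlt
          rw [not_le] at hlt
          nlinarith
        have := Nat.le_floor h3
        omega
      · apply Nat.Coprime.pow_left
        rw [hq.coprime_iff_not_dvd]
        intro hqb
        have h3 : (q : ℤ) ∣ lf L p := by
          rw [Int.natCast_dvd]
          exact (dvd_pow_self q two_ne_zero).trans hqd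
        have h4 : (q : ℤ) ∣ (L.2 : ℤ) := Int.natCast_dvd_natCast.2 hqb
        have h5 : (q : ℤ) ∣ L.1 := by
          have h6 : L.1 = lf L p - L.2 * p := by
            unfold lf
            ring
          rw [h6]
          exact dvd_sub h3 (h4.mul_right _)
        have h7 := Int.dvd_coe_gcd h5 h4
        rw [hg] at h7
        have h8 : q ∣ 1 := by exact_mod_cast h7
        exact hq.one_lt.ne' (Nat.dvd_one.1 h8)
    · rw [mem_filter]
      exact ⟨hpA, Int.natCast_dvd.2 hqd⟩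
  have h1 : ((A.filter (fun p : ℕ => lf L p ≠ 0 ∧ ∃ q : ℕ, q.Prime ∧
      (N : ℝ) ^ (1 / 8 : ℝ) ≤ q ∧ q ^ 2 ∣ (lf L p).natAbs)).card : ℝ) ≤
      ∑ q ∈ Ioo k (M + 1), ((N : ℝ) / (q : ℝ) ^ 2 + 1) := by
    have h2 := (Finset.card_le_card hsub).trans Finset.card_biUnion_le
    calc _ ≤ ((∑ q ∈ (Ioo k (M + 1)).filter (fun q => Nat.Coprime (q ^ 2) L.2),
          (A.filter (fun p : ℕ => ((q ^ 2 : ℕ) : ℤ) ∣ lf L p)).card : ℕ) : ℝ) := by
          exact_mod_cast h2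
      _ = ∑ q ∈ (Ioo k (M + 1)).filter (fun q => Nat.Coprime (q ^ 2) L.2),
          ((A.filter (fun p : ℕ => ((q ^ 2 : ℕ) : ℤ) ∣ lf L p)).card : ℝ) := by push_cast; rfl
      _ ≤ ∑ q ∈ (Ioo k (M + 1)).filter (fun q => Nat.Coprime (q ^ 2) L.2),
          ((N : ℝ) / (q : ℝ) ^ 2 + 1) := by
          apply Finset.sum_le_sum
          intro q hq
          rw [mem_filter, mem_Ioo] at hq
          have hq0 : 1 ≤ q := by omega
          have h3 := one_class (Nat.one_le_pow 2 q hq0) A hA L hq.2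
          push_cast at h3
          exact_mod_cast h3
      _ ≤ _ := Finset.sum_le_sum_of_subset_of_nonneg (Finset.filter_subset _ _)
          (fun q _ _ => by positivity)
  rw [Finset.sum_add_distrib, Finset.sum_const, nsmul_eq_mul, mul_one, Nat.card_Ioo] at h1
  have h4 : ∑ q ∈ Ioo k (M + 1), (N : ℝ) / (q : ℝ) ^ 2 =
      N * ∑ q ∈ Ioo k (M + 1), ((q : ℝ) ^ 2)⁻¹ := by
    rw [Finset.mul_sum]
    rfl
  rw [h4] at h1
  have h6 := sum_Ioo_inv_sq_le (α := ℝ) k (M + 1)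
  have h7 : (2 : ℝ) / (k + 1) ≤ 2 / (N : ℝ) ^ (1 / 8 : ℝ) := by
    apply div_le_div_of_nonneg_left (by norm_num) (by linarith)
    have h8 := Nat.le_ceil ((N : ℝ) ^ (1 / 8 : ℝ))
    rw [← hk] at h8
    push_cast at h8
    exact h8
  have h9 : (N : ℝ) / (N : ℝ) ^ (1 / 8 : ℝ) = (N : ℝ) ^ (7 / 8 : ℝ) := by
    rw [div_eq_iff (by positivity), ← Real.rpow_add hN0]
    norm_num
  have h10 : ((M + 1 - k - 1 : ℕ) : ℝ) ≤ 3 / 2 * (N : ℝ) ^ (7 / 8 : ℝ) := by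
    calc ((M + 1 - k - 1 : ℕ) : ℝ) ≤ (M : ℝ) := by exact_mod_cast (by omega : M + 1 - k - 1 ≤ M)
      _ ≤ 3 / 2 * (N : ℝ) ^ (2 / 3 : ℝ) := Nat.floor_le (by positivity)
      _ ≤ _ := by
          have := Real.rpow_le_rpow_of_exponent_le hN1 (show (2 / 3 : ℝ) ≤ 7 / 8 by norm_num)
          linarith
  have h11 : (N : ℝ) * ∑ q ∈ Ioo k (M + 1), ((q : ℝ) ^ 2)⁻¹ ≤ 2 * (N : ℝ) ^ (7 / 8 : ℝ) := by
    calc (N : ℝ) * ∑ q ∈ Ioo k (M + 1), ((q : ℝ) ^ 2)⁻¹ ≤ N * (2 / (N : ℝ) ^ (1 / 8 : ℝ)) :=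
          mul_le_mul_of_nonneg_left (h6.trans h7) hN0.le
      _ = 2 * ((N : ℝ) / (N : ℝ) ^ (1 / 8 : ℝ)) := by ring
      _ = _ := by rw [h9]
  have h12 : 0 ≤ (N : ℝ) ^ (7 / 8 : ℝ) := by positivity
  linarith

open Classical in
/-- the theorem for large `N` -/
theorem lin_N (hPT : St_PT) (hLN : St_LN) (hER : St_ER) (hMI : St_MI) (hMT : St_MT)
    (hMP : St_MP) (hNU : St_NU3) (hSFX : St_SFX) (hBLF : St_BLF)
    (ε : ℝ) (hε : 0 < ε) :
    ∃ (c C η : ℝ) (N₀ : ℕ), 0 < c ∧ 0 < C ∧ 0 < η ∧ ∀ N : ℕ, N₀ ≤ N → ∀ A : Finset ℕ,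
      (∀ p ∈ A, p.Prime ∧ p ≤ N) → (N : ℝ) ^ (1 - η) ≤ A.card → ∀ E : Finset (ℤ × ℕ),
      (∀ L ∈ E, Int.gcd L.1 L.2 = 1 ∧ |(L.1 : ℝ)| ≤ (N : ℝ) ^ (4 / 3 : ℝ) ∧ 1 ≤ L.2 ∧
        (L.2 : ℝ) ≤ (N : ℝ) ^ (1 / 3 : ℝ) ∧
        ((A.filter (fun p : ℕ => lf L p ≠ 0 ∧
          ∃ m s : ℕ, (lf L p).natAbs = m * s ∧
            (∀ l : ℕ, l.Prime → l ∣ m → (l : ℝ) < (N : ℝ) ^ ε) ∧
            s.primeFactorsList.length ≤ 3 ∧
            ∀ q ∈ s.primeFactors, (N : ℝ) ^ (1 / 8 : ℝ) ≤ q)).card : ℝ) < c * A.card) →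
      (E.card : ℝ) ≤ C * (N / (A.card * Real.log N)) := by
  obtain ⟨A0, F, f, hS⟩ := hSFX
  obtain ⟨c₀, hc₀, H1⟩ := lowerWb hPT hLN hER hMI hMT hMP hNU A0 F f hS
  set ε₁ : ℝ := min (1 / 25) ε with hε₁'
  have hε₁ : 0 < ε₁ := lt_min (by norm_num) hε
  have hε₁a : ε₁ ≤ 1 / 25 := min_le_left _ _
  have hε₁b : ε₁ ≤ ε := min_le_right _ _
  obtain ⟨N₁, hN₁⟩ := H1 ε₁ hε₁ hε₁a
  obtain ⟨N₃, hN₃⟩ := structb
  obtain ⟨κ, hκ, hκ2⟩ : ∃ κ : ℝ, 0 < κ ∧ 3 * κ = c₀ * ε₁ / 2 :=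
    ⟨c₀ * ε₁ / 6, by positivity, by ring⟩
  obtain ⟨η, C, hη, hC, H2⟩ := hBLF (99 / 200) (ε₁ / 2) (by norm_num) (by positivity)
  obtain ⟨N₂, hN₂⟩ : ∃ N₀ : ℕ, ∀ N : ℕ, N₀ ≤ N → C * (N : ℝ) ^ (-(η / 2)) ≤ κ ^ 2 / 2 := by
    have h1 : Filter.Tendsto (fun N : ℕ => C * (N : ℝ) ^ (-(η / 2))) Filter.atTop
        (nhds (C * 0)) :=
      ((tendsto_rpow_neg_atTop (by positivity : 0 < η / 2)).comp
        (tendsto_natCast_atTop_atTop (R := ℝ))).const_mul C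
    rw [mul_zero] at h1
    have h2 := h1.eventually_le_const (show (0 : ℝ) < κ ^ 2 / 2 by positivity)
    exact Filter.eventually_atTop.1 h2
  -- large `N`
  obtain ⟨N₄, hN₄⟩ : ∃ N₄ : ℕ, ∀ N : ℕ, N₄ ≤ N →
      5 * (N : ℝ) ^ (7 / 8 : ℝ) + 1 ≤ c₀ * ε₁ / 4 * (N : ℝ) ^ (15 / 16 : ℝ) := by
    have hlim : Tendsto (fun N : ℕ => (N : ℝ) ^ (-(1 / 16 : ℝ))) atTop (nhds 0) :=
      (tendsto_rpow_neg_atTop (by norm_num : (0 : ℝ) < 1 / 16)).comp
        (tendsto_natCast_atTop_atTop (R := ℝ))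
    have h1 := hlim.eventually_le_const (show (0 : ℝ) < c₀ * ε₁ / 4 / 6 by positivity)
    obtain ⟨M, hM⟩ := Filter.eventually_atTop.1 h1
    refine ⟨max M 2, fun N hN => ?_⟩
    have hNM : M ≤ N := (le_max_left _ _).trans hN
    have hN2 : 2 ≤ N := (le_max_right _ _).trans hN
    have hN1 : (1 : ℝ) < N := by exact_mod_cast (by omega : 1 < N)
    have hN0 : (0 : ℝ) < N := by linarith
    have h2 := hM N hNM
    have h4 : (N : ℝ) ^ (7 / 8 : ℝ) = (N : ℝ) ^ (-(1 / 16 : ℝ)) * (N : ℝ) ^ (15 / 16 : ℝ) := by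
      rw [← Real.rpow_add hN0]
      norm_num
    have h6 : (1 : ℝ) ≤ (N : ℝ) ^ (7 / 8 : ℝ) := Real.one_le_rpow hN1.le (by norm_num)
    have h7 : 6 * (N : ℝ) ^ (7 / 8 : ℝ) ≤ c₀ * ε₁ / 4 * (N : ℝ) ^ (15 / 16 : ℝ) := by
      rw [h4]
      have h8 : 0 ≤ (N : ℝ) ^ (15 / 16 : ℝ) := by positivity
      nlinarith
    linarith
  refine ⟨c₀ * ε₁ / 4, 2 * C / κ ^ 2, min (η / 4) (1 / 16), max (max N₁ N₂) (max (max N₃ N₄) 2),
    by positivity, by positivity, lt_min (by positivity) (by norm_num), ?_⟩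
  intro N hN A hA hAc E hE
  have hNN₁ : N₁ ≤ N := ((le_max_left _ _).trans (le_max_left _ _)).trans hN
  have hNN₂ : N₂ ≤ N := ((le_max_right _ _).trans (le_max_left _ _)).trans hN
  have hNN₃ : N₃ ≤ N :=
    (((le_max_left _ _).trans (le_max_left _ _)).trans (le_max_right _ _)).trans hN
  have hNN₄ : N₄ ≤ N :=
    (((le_max_right _ _).trans (le_max_left _ _)).trans (le_max_right _ _)).trans hN
  have hN2 : 2 ≤ N := ((le_max_right _ _).trans (le_max_right _ _)).trans hN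
  have hN1 : (1 : ℝ) < N := by exact_mod_cast (by omega : 1 < N)
  have hN0 : (0 : ℝ) < N := by linarith
  have hL : 0 < Real.log N := Real.log_pos hN1
  have hAc1 : (N : ℝ) ^ (1 - η / 4) ≤ A.card := by
    refine le_trans (Real.rpow_le_rpow_of_exponent_le hN1.le ?_) hAc
    have := min_le_left (η / 4) (1 / 16)
    linarith
  have hAc2 : (N : ℝ) ^ (15 / 16 : ℝ) ≤ A.card := by
    refine le_trans (Real.rpow_le_rpow_of_exponent_le hN1.le ?_) hAc
    have := min_le_right (η / 4) (1 / 16)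
    linarith
  have hA0 : (0 : ℝ) < A.card := by
    have : 0 < (N : ℝ) ^ (15 / 16 : ℝ) := Real.rpow_pos_of_pos hN0 _
    linarith
  -- sizes
  have hsq : (N : ℝ) ^ (4 / 3 : ℝ) ≤ (N : ℝ) ^ 2 := by
    rw [← Real.rpow_two]
    exact Real.rpow_le_rpow_of_exponent_le hN1.le (by norm_num)
  have hsq2 : (N : ℝ) ^ (1 / 3 : ℝ) ≤ (N : ℝ) ^ 2 := by
    rw [← Real.rpow_two]
    exact Real.rpow_le_rpow_of_exponent_le hN1.le (by norm_num)
  have hFo : ∀ L ∈ E, Fo N L := fun L hL' => by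
    obtain ⟨h1, h2, h3, h4, -⟩ := hE L hL'
    exact ⟨h2.trans hsq, h3, h4.trans hsq2, h1⟩
  -- the lower bound for the discrepancy
  have hR : ∀ L ∈ E, κ * A.card ≤
      ∑ d ∈ mods N L.2 (99 / 200) (ε₁ / 2), |DL (fA A) N L d| := by
    intro L hLE
    obtain ⟨hg, ha, hb1, hb2, hcd⟩ := hE L hLE
    by_contra hnot
    rw [not_le] at hnot
    have hb2' : L.2 ≤ N ^ 2 := by
      have := (hFo L hLE).b2
      exact_mod_cast this
    have hlow := hN₁ N hNN₁ A hA L hb1 hb2'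
    have hpos := sum_le_posb (N := N) (b := L.2) (ε₁ := ε₁) A (fun p : ℕ => (lf L p).natAbs)
    have hval : ∀ p ∈ A, ((lf L p).natAbs : ℝ) ≤ 2 * (N : ℝ) ^ (4 / 3 : ℝ) := by
      intro p hp
      have h1 : ((lf L p).natAbs : ℝ) = |(L.1 : ℝ) + L.2 * p| := by
        rw [Nat.cast_natAbs]
        unfold lf
        push_cast
        rfl
      rw [h1]
      have h2 : (p : ℝ) ≤ N := by exact_mod_cast (hA p hp).2
      have h3 : (N : ℝ) ^ (4 / 3 : ℝ) = (N : ℝ) ^ (1 / 3 : ℝ) * N := by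
        nth_rewrite 3 [← Real.rpow_one (N : ℝ)]
        rw [← Real.rpow_add hN0]
        norm_num
      calc |(L.1 : ℝ) + L.2 * p| ≤ |(L.1 : ℝ)| + |(L.2 : ℝ) * p| := abs_add_le _ _
        _ = |(L.1 : ℝ)| + (L.2 : ℝ) * p := by rw [abs_of_nonneg (by positivity : (0:ℝ) ≤ (L.2 : ℝ) * p)]
        _ ≤ (N : ℝ) ^ (4 / 3 : ℝ) + (N : ℝ) ^ (1 / 3 : ℝ) * N := by gcongr
        _ = _ := by rw [← h3]; ring
    -- the good set
    set Gd := A.filter (fun p : ℕ => lf L p ≠ 0 ∧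
          ∃ m s : ℕ, (lf L p).natAbs = m * s ∧
            (∀ l : ℕ, l.Prime → l ∣ m → (l : ℝ) < (N : ℝ) ^ ε) ∧
            s.primeFactorsList.length ≤ 3 ∧
            ∀ q ∈ s.primeFactors, (N : ℝ) ^ (1 / 8 : ℝ) ≤ q) with hGd
    set B1 := A.filter (fun p : ℕ => lf L p ≠ 0 ∧ ∃ q : ℕ, q.Prime ∧
      (N : ℝ) ^ (1 / 8 : ℝ) ≤ q ∧ q ^ 2 ∣ (lf L p).natAbs) with hB1
    set B3 := A.filter (fun p : ℕ => lf L p = 0) with hB3
    have hcover : A.filter (fun p : ℕ => 0 < Wb N L.2 ε₁ (lf L p).natAbs) ⊆ (Gd ∪ B1) ∪ B3 := by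
      intro p hp
      rw [mem_filter] at hp
      obtain ⟨hpA, hpW⟩ := hp
      by_contra hno
      simp only [mem_union, not_or] at hno
      obtain ⟨⟨g1, g2⟩, g4⟩ := hno
      have hpa : lf L p ≠ 0 := by
        intro h
        apply g4
        rw [hB3, mem_filter]
        exact ⟨hpA, h⟩
      have hn0 : (lf L p).natAbs ≠ 0 := by
        rw [Ne, Int.natAbs_eq_zero]
        exact hpa
      obtain ⟨m, s, hms, hm, hs2, hs3⟩ := hN₃ N hNN₃ L.2 ε₁ _ hn0 (hval p hpA) hpW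
        (fun q hq hqN hqd => by
          apply g2
          rw [hB1, mem_filter]
          exact ⟨hpA, hpa, q, hq, hqN, hqd⟩)
        (fun q hq hqn hqb => by
          have h3 : (q : ℤ) ∣ lf L p := Int.natCast_dvd.2 hqn
          have h4 : (q : ℤ) ∣ (L.2 : ℤ) := Int.natCast_dvd_natCast.2 hqb
          have h5 : (q : ℤ) ∣ L.1 := by
            have h6 : L.1 = lf L p - L.2 * p := by
              unfold lf
              ring
            rw [h6]
            exact dvd_sub h3 (h4.mul_right _)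
          have h7 := Int.dvd_coe_gcd h5 h4
          rw [hg] at h7
          have h8 : q ∣ 1 := by exact_mod_cast h7
          exact hq.one_lt.ne' (Nat.dvd_one.1 h8))
      apply g1
      rw [hGd, mem_filter]
      exact ⟨hpA, hpa, m, s, hms, fun l hl hlm => lt_of_lt_of_le (hm l hl hlm)
        (Real.rpow_le_rpow_of_exponent_le hN1.le hε₁b), hs2, hs3⟩
    have hcard : ((A.filter (fun p : ℕ => 0 < Wb N L.2 ε₁ (lf L p).natAbs)).card : ℝ) ≤
        Gd.card + B1.card + B3.card := by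
      have h1 := (Finset.card_le_card hcover).trans (Finset.card_union_le _ _)
      have h3 := Finset.card_union_le Gd B1
      have h4 : (A.filter (fun p : ℕ => 0 < Wb N L.2 ε₁ (lf L p).natAbs)).card ≤
          Gd.card + B1.card + B3.card := by omega
      exact_mod_cast h4
    have hb1' : (B1.card : ℝ) ≤ 5 * (N : ℝ) ^ (7 / 8 : ℝ) :=
      squaresb hN2 A (fun p hp => (hA p hp).2) L hg hval
    have hb3 : (B3.card : ℝ) ≤ 1 := by
      have : B3.card ≤ 1 := by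
        apply Finset.card_le_one.2
        intro p hp q hq
        rw [hB3, mem_filter] at hp hq
        have h1 : (L.2 : ℤ) * ((p : ℤ) - q) = 0 := by
          have h4 : lf L p - lf L q = (L.2 : ℤ) * ((p : ℤ) - q) := by
            unfold lf
            ring
          rw [hp.2, hq.2, sub_zero] at h4
          exact h4.symm
        rcases mul_eq_zero.1 h1 with h2 | h2
        · exfalso
          have : L.2 = 0 := by exact_mod_cast h2
          omega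
        · omega
      exact_mod_cast this
    have hb4 := hN₄ N hNN₄
    have hR3 : 3 * ∑ d ∈ mods N L.2 (99 / 200) (ε₁ / 2), |DL (fA A) N L d| ≤
        c₀ * ε₁ / 2 * A.card := by
      calc _ ≤ 3 * (κ * A.card) := by linarith
        _ = (3 * κ) * A.card := by ring
        _ = _ := by rw [hκ2]
    have hb5 : c₀ * ε₁ / 4 * (N : ℝ) ^ (15 / 16 : ℝ) ≤ c₀ * ε₁ / 4 * A.card := by
      have : 0 ≤ c₀ * ε₁ / 4 := by positivity
      nlinarith
    have hcd' : (Gd.card : ℝ) < c₀ * ε₁ / 4 * A.card := hcd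
    linarith
  -- the Bessel inequality
  have h1 := H2 N hN2 (fA A) (fA_le A) E hFo
    (fun L => mods N L.2 (99 / 200) (ε₁ / 2)) (fun L _ d hd => by
      unfold mods at hd
      rw [mem_filter, mem_Icc] at hd
      refine ⟨?_, hd.2.1, hd.2.2⟩
      exact le_trans (Nat.cast_le.2 hd.1.2) (Nat.floor_le (by positivity)))
  rw [Q2_fA hA] at h1
  have h2 : (E.card : ℝ) * (κ ^ 2 * (A.card : ℝ) ^ 2) ≤
      ∑ L ∈ E, (∑ d ∈ mods N L.2 (99 / 200) (ε₁ / 2), |DL (fA A) N L d|) ^ 2 := by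
    rw [← nsmul_eq_mul, ← Finset.sum_const]
    apply Finset.sum_le_sum
    intro L hLE
    rw [← mul_pow]
    exact pow_le_pow_left₀ (by positivity) (hR L hLE) 2
  have h3 : C * (N : ℝ) ^ (2 - η) ≤ κ ^ 2 / 2 * (A.card : ℝ) ^ 2 := by
    have e1 : (N : ℝ) ^ (2 - η) = (N : ℝ) ^ (-(η / 2)) * ((N : ℝ) ^ (1 - η / 4)) ^ 2 := by
      rw [← Real.rpow_natCast ((N : ℝ) ^ (1 - η / 4)) 2, ← Real.rpow_mul hN0.le,
        ← Real.rpow_add hN0]
      congr 1
      push_cast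
      ring
    rw [e1, ← mul_assoc]
    have := hN₂ N hNN₂
    gcongr
  have h4 : (E.card : ℝ) * (κ ^ 2 / 2 * (A.card : ℝ) ^ 2) ≤ C * (A.card * (N / Real.log N)) := by
    have h5 := h2.trans h1
    have h6 : (E.card : ℝ) * (C * (N : ℝ) ^ (2 - η)) ≤
        E.card * (κ ^ 2 / 2 * (A.card : ℝ) ^ 2) :=
      mul_le_mul_of_nonneg_left h3 (Nat.cast_nonneg _)
    nlinarith
  have h7 : (E.card : ℝ) * (κ ^ 2 / 2 * (A.card : ℝ) ^ 2) =
      (A.card : ℝ) * (E.card * (κ ^ 2 / 2 * A.card)) := by ring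
  have h8 : C * (A.card * (N / Real.log N)) = (A.card : ℝ) * (C * (N / Real.log N)) := by ring
  rw [h7, h8] at h4
  have h9 := le_of_mul_le_mul_left h4 hA0
  calc (E.card : ℝ) = E.card * (κ ^ 2 / 2 * A.card) * (2 / (κ ^ 2 * A.card)) := by
        field_simp
    _ ≤ C * (N / Real.log N) * (2 / (κ ^ 2 * A.card)) := by gcongr
    _ = _ := by
        field_simp

open Classical in
/-- **Sets of primes and almost prime values of linear forms** -/
theorem lin (hPT : St_PT) (hLN : St_LN) (hER : St_ER) (hMI : St_MI) (hMT : St_MT)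
    (hMP : St_MP) (hNU : St_NU3) (hSFX : St_SFX) (hBLF : St_BLF)
    (ε : ℝ) (hε : 0 < ε) :
    ∃ c C η : ℝ, 0 < c ∧ 0 < η ∧ ∀ X : ℕ, 2 ≤ X → ∀ Q : Finset ℕ,
      (∀ q ∈ Q, q.Prime ∧ q ≤ X) → (X : ℝ) ^ (1 - η) ≤ Q.card → ∀ E : Finset (ℤ × ℕ),
      (∀ L ∈ E, Int.gcd L.1 L.2 = 1 ∧ |(L.1 : ℝ)| ≤ (X : ℝ) ^ (4 / 3 : ℝ) ∧ 1 ≤ L.2 ∧
        (L.2 : ℝ) ≤ (X : ℝ) ^ (1 / 3 : ℝ) ∧
        ((Q.filter (fun q : ℕ => L.1 + L.2 * q ≠ 0 ∧
          ∃ m s : ℕ, (L.1 + L.2 * q).natAbs = m * s ∧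
            (∀ l : ℕ, l.Prime → l ∣ m → (l : ℝ) < (X : ℝ) ^ ε) ∧
            s.primeFactorsList.length ≤ 3 ∧
            ∀ l ∈ s.primeFactors, (X : ℝ) ^ (1 / 8 : ℝ) ≤ l)).card : ℝ) < c * Q.card) →
      (E.card : ℝ) ≤ C * (X / (Q.card * Real.log X)) := by
  obtain ⟨c, C, η, N₀, hc, hC, hη, H⟩ := lin_N hPT hLN hER hMI hMT hMP hNU hSFX hBLF ε hε
  refine ⟨c, max C (20 * (N₀ + 2) ^ 4 * Real.log (N₀ + 2)), η, hc, hη, ?_⟩
  intro X hX Q hQ hQc E hE
  have hX2 : (2 : ℝ) ≤ X := by exact_mod_cast hX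
  have hX0 : (0 : ℝ) < X := by linarith
  have hLX : 0 < Real.log X := Real.log_pos (by linarith)
  have hA0 : (0 : ℝ) < Q.card := lt_of_lt_of_le (Real.rpow_pos_of_pos hX0 _) hQc
  have hAX : (Q.card : ℝ) ≤ X := by
    have : Q.card ≤ (Icc 1 X).card := Finset.card_le_card (fun p hp => by
      rw [mem_Icc]
      exact ⟨(hQ p hp).1.pos, (hQ p hp).2⟩)
    rw [Nat.card_Icc] at this
    exact_mod_cast (by omega : Q.card ≤ X)
  have hQ' : 0 < (X : ℝ) / (Q.card * Real.log X) := by positivity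
  rcases lt_or_ge X N₀ with hlt | hge
  · have h1 : (1 : ℝ) ≤ Real.log (N₀ + 2) * (X / (Q.card * Real.log X)) := by
      rw [← mul_div_assoc, le_div_iff₀ (by positivity), one_mul]
      have h2 : Real.log X ≤ Real.log (N₀ + 2) := by
        apply Real.log_le_log hX0
        have : (X : ℝ) ≤ N₀ := by exact_mod_cast hlt.le
        linarith
      calc (Q.card : ℝ) * Real.log X ≤ X * Real.log (N₀ + 2) := by gcongr
        _ = _ := by ring
    have h3 : (E.card : ℝ) ≤ 20 * (N₀ + 2) ^ 4 := by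
      have hsub : E ⊆ (Icc (-((N₀ + 2) ^ 2 : ℤ)) ((N₀ + 2) ^ 2)) ×ˢ (Icc 1 ((N₀ + 2) ^ 2)) := by
        intro L hL
        obtain ⟨-, h2, h3, h4, -⟩ := hE L hL
        have hXN : (X : ℝ) ≤ N₀ + 2 := by
          have : (X : ℝ) ≤ N₀ := by exact_mod_cast hlt.le
          linarith
        have hb : ∀ t : ℝ, 0 ≤ t → t ≤ 2 → (X : ℝ) ^ t ≤ ((N₀ : ℝ) + 2) ^ 2 := by
          intro t ht0 ht
          calc (X : ℝ) ^ t ≤ (X : ℝ) ^ (2 : ℝ) :=
                Real.rpow_le_rpow_of_exponent_le (by linarith) ht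
            _ ≤ ((N₀ : ℝ) + 2) ^ (2 : ℝ) := Real.rpow_le_rpow hX0.le hXN (by norm_num)
            _ = _ := Real.rpow_two _
        have h5 := h2.trans (hb _ (by norm_num) (by norm_num))
        have h6 := h4.trans (hb _ (by norm_num) (by norm_num))
        rw [abs_le] at h5
        rw [mem_product, mem_Icc, mem_Icc]
        refine ⟨⟨?_, ?_⟩, h3, ?_⟩
        · exact_mod_cast h5.1
        · exact_mod_cast h5.2
        · exact_mod_cast h6
      have h4 := Finset.card_le_card hsub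
      rw [Finset.card_product, Int.card_Icc, Nat.card_Icc] at h4
      have h5 : (((N₀ : ℤ) + 2) ^ 2 + 1 - -(((N₀ : ℤ) + 2) ^ 2)).toNat ≤ 3 * (N₀ + 2) ^ 2 := by
        have h6 : 1 ≤ (N₀ + 2) ^ 2 := Nat.one_le_pow _ _ (by omega)
        have h7 : ((N₀ : ℤ) + 2) ^ 2 = (((N₀ + 2) ^ 2 : ℕ) : ℤ) := by push_cast; ring
        rw [h7]
        omega
      have h6 : (N₀ + 2) ^ 2 + 1 - 1 ≤ (N₀ + 2) ^ 2 := by omega
      have h7 : E.card ≤ 3 * (N₀ + 2) ^ 2 * (N₀ + 2) ^ 2 := h4.trans (Nat.mul_le_mul h5 h6)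
      have h8 : E.card ≤ 20 * (N₀ + 2) ^ 4 := by
        calc E.card ≤ 3 * (N₀ + 2) ^ 2 * (N₀ + 2) ^ 2 := h7
          _ = 3 * (N₀ + 2) ^ 4 := by ring
          _ ≤ _ := Nat.mul_le_mul_right _ (by norm_num)
      exact_mod_cast h8
    calc _ ≤ 20 * ((N₀ : ℝ) + 2) ^ 4 := h3
      _ = 20 * (N₀ + 2) ^ 4 * 1 := by ring
      _ ≤ 20 * (N₀ + 2) ^ 4 * (Real.log (N₀ + 2) * (X / (Q.card * Real.log X))) := by gcongr
      _ = (20 * (N₀ + 2) ^ 4 * Real.log (N₀ + 2)) * (X / (Q.card * Real.log X)) := by ring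
      _ ≤ _ := by
          gcongr
          exact le_max_right _ _
  · have key := H X hge Q hQ hQc E hE
    refine key.trans ?_
    gcongr
    exact le_max_left _ _

end Pool.Agent.W23.SG
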