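import Pool.Agent.W23.SG.All
import Pool.Agent.W23.SG.Fin4

/-!
SG project (helper23): assembly, larger values.
-/

namespace Pool.Agent.W23.SG

open Finset
open Pool.Agent.H442R2
open Pool.Agent.W23.DC

open Classical in
/-- **Sets of primes and almost prime values of linear forms** -/
theorem linear_forms_g (ε g : ℝ) (r : ℕ) (hε : 0 < ε) (hg1 : 1 ≤ g) (hg2 : g ≤ 2)
    (hgr : g < 9 / 20 * ((r : ℝ) - 1 / 29)) :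
    ∃ c C η : ℝ, 0 < c ∧ 0 < η ∧ ∀ X : ℕ, 2 ≤ X → ∀ Q : Finset ℕ,
      (∀ q ∈ Q, q.Prime ∧ q ≤ X) → (X : ℝ) ^ (1 - η) ≤ Q.card → ∀ E : Finset (ℤ × ℕ),
      (∀ L ∈ E, Int.gcd L.1 L.2 = 1 ∧ |(L.1 : ℝ)| ≤ (X : ℝ) ^ g ∧ 1 ≤ L.2 ∧
        (L.2 : ℝ) ≤ (X : ℝ) ^ (g - 1) ∧
        ((Q.filter (fun q : ℕ => L.1 + L.2 * q ≠ 0 ∧
          ∃ m s : ℕ, (L.1 + L.2 * q).natAbs = m * s ∧
            (∀ l : ℕ, l.Prime → l ∣ m → (l : ℝ) < (X : ℝ) ^ ε) ∧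
            s.primeFactorsList.length ≤ r ∧
            ∀ l ∈ s.primeFactors, (X : ℝ) ^ (1 / 8 : ℝ) ≤ l)).card : ℝ) < c * Q.card) →
      (E.card : ℝ) ≤ C * (X / (Q.card * Real.log X)) :=
  ling W52.DC.PT W120.DC.LN W586.DC.ER W505.DC.MI MT_thm W378.DC.MP W347.SG.NU3 W366.DC.SFX
    BLF_thm ε g r hε hg1 hg2 hgr

end Pool.Agent.W23.SG
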