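import Pool.Agent.W23.DC.Defs

/-!
SG project (helper23): arbitrary (sparse) sets of primes.

Every `St_X` below is the statement of one task; the doc comment is its complete proof.  The file of
a task is `Pool/Agent/W<yourseat>/SG/<Name>.lean`, the theorem has the name given in the comment.
-/

namespace Pool.Agent.W23.SG

open Finset
open Pool.Agent.H442R2
open Pool.Agent.H442R2.KF
open Pool.Agent.W23.DC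

/-! ## Part 1: the Bessel inequalities with `∑ f²` -/

/-- `∑_{p ≤ N} f(p)²` -/
noncomputable def Q2 (f : ℕ → ℝ) (N : ℕ) : ℝ := ∑ p ∈ (Icc 1 N).filter Nat.Prime, f p ^ 2

/-- **BK2** (theorem
`BK2 (hTT : BX.St_TT) (hDI : BX.St_DI) (hDU : BX.St_DU) (hPR : BX.St_PR) (hWX : BX.St_WX)
(hEX : BX.St_EX) : St_BK2`).  One coarse block; copy and adapt `BX.BK` (`BX/Bk.lean`).

Proof.  As `BX.BK` (same `z`, `lam`, `w`, `c_a`, `r`).  Large `N`: DU gives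
`∑_a Y_a² ≤ 25 (∑_{p ∈ S} f²) (G + |A| O)`, `G = C₂ N/log z ≤ C N/log N`, `O = C₁ N^(1-η₁)`, and
`∑_{p ∈ S} f² ≤ Q2 f N ≤ N`, so it is `≤ C (Q2 f N · N/log N + |A| N^(2-η₁))`; the remaining error is
`∑_a 2 E² ≤ C |A| N^(2-2η₂)`.  Small `N` (`N < M`): the left side is `≤ |A| 4 N⁴ ≤ 4 M⁴ |A| N^(2-η)`
(`η ≤ 1`, `N ≥ 1`). -/
def St_BK2 : Prop := ∀ θ ε : ℝ, θ < 14 / 27 → 0 < ε → ∃ (ε₀ η C : ℝ), 0 < ε₀ ∧ 0 < η ∧ 0 < C ∧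
    ∀ (N D0 X : ℕ), 2 ≤ N → (X : ℝ) ≤ (N : ℝ) ^ θ → 1 ≤ D0 → (X : ℝ) ≤ (N : ℝ) ^ ε₀ * D0 →
    ∀ f : ℕ → ℝ, (∀ p, |f p| ≤ 1) → ∀ A : Finset ℤ, (∀ a ∈ A, |(a : ℝ)| ≤ N) →
    ∀ T : ℤ → Finset ℕ, (∀ a ∈ A, ∀ d ∈ T a, D0 < d ∧ d ≤ X ∧ BX.Rough ((N : ℝ) ^ ε) d) →
    ∑ a ∈ A, (∑ d ∈ T a, |BX.Df f N a d|) ^ 2 ≤
      C * (Q2 f N * (N / Real.log N) + A.card * (N : ℝ) ^ (2 - η))

/-- **FI2** (theorem `FI2 (hBK2 : St_BK2) : St_FI2`; copy and adapt `BX.FI` (`BX/Fi.lean`; the lemmas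
of `BX.TaskFI` can be imported)). -/
def St_FI2 : Prop := ∀ θ ε : ℝ, θ < 14 / 27 → 0 < ε → ∃ (η C : ℝ), 0 < η ∧ 0 < C ∧
    ∀ N : ℕ, 2 ≤ N → ∀ f : ℕ → ℝ, (∀ p, |f p| ≤ 1) → ∀ A : Finset ℤ, (∀ a ∈ A, |(a : ℝ)| ≤ N) →
    ∀ T : ℤ → Finset ℕ,
    (∀ a ∈ A, ∀ d ∈ T a, (d : ℝ) ≤ (N : ℝ) ^ θ ∧ BX.Rough ((N : ℝ) ^ ε) d) →
    ∑ a ∈ A, (∑ d ∈ T a, |BX.Df f N a d|) ^ 2 ≤
      C * (Q2 f N * (N / Real.log N) + A.card * (N : ℝ) ^ (2 - η))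

/-- **BKF2** (theorem
`BKF2 (hTTF : St_TTF) (hDI : BX.St_DI) (hDU : BX.St_DU) (hPR : BX.St_PR) (hWXS : St_WXS)
(hEX : BX.St_EX) : St_BKF2`; copy and adapt `Pool.Agent.W397.DC.BKF`, exactly as in BK2). -/
def St_BKF2 : Prop := ∀ θ δ ε : ℝ, 1 / 2 ≤ θ → θ < 5 / 9 → 0 < δ → 0 < ε →
    ∃ (ε₀ η C : ℝ), 0 < ε₀ ∧ 0 < η ∧ 0 < C ∧
    ∀ (N D0 X : ℕ), 2 ≤ N → (X : ℝ) ≤ (N : ℝ) ^ θ → 1 ≤ D0 → (X : ℝ) ≤ (N : ℝ) ^ ε₀ * D0 →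
    ∀ f : ℕ → ℝ, (∀ p, |f p| ≤ 1) → ∀ A : Finset ℤ, (∀ a ∈ A, |(a : ℝ)| ≤ N) →
    ∀ T : ℤ → Finset ℕ,
    (∀ a ∈ A, ∀ d ∈ T a, D0 < d ∧ d ≤ X ∧ BX.Rough ((N : ℝ) ^ ε) d ∧ FX.FacD N θ δ d) →
    ∑ a ∈ A, (∑ d ∈ T a, |BX.Df f N a d|) ^ 2 ≤
      C * (Q2 f N * (N / Real.log N) + A.card * (N : ℝ) ^ (2 - η))

/-- **FIF2** (theorem `FIF2 (hBKF2 : St_BKF2) (hFI2 : St_FI2) : St_FIF2`; copy and adapt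
`Pool.Agent.W583.DC.FIF` (`Pool/Agent/W583/DC/FIF.lean`)). -/
def St_FIF2 : Prop := ∀ θ δ ε : ℝ, θ < 5 / 9 → 0 < δ → 0 < ε → ∃ (η C : ℝ), 0 < η ∧ 0 < C ∧
    ∀ N : ℕ, 2 ≤ N → ∀ f : ℕ → ℝ, (∀ p, |f p| ≤ 1) → ∀ A : Finset ℤ, (∀ a ∈ A, |(a : ℝ)| ≤ N) →
    ∑ a ∈ A, (∑ d ∈ facR N θ ε δ, |BX.Df f N a d|) ^ 2 ≤
      C * (Q2 f N * (N / Real.log N) + A.card * (N : ℝ) ^ (2 - η))

/-! ## Part 2: linear forms `a + b n`, level `1/2` -/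

/-- the pairs `(a, b)`: coprime, `|a| ≤ N²`, `1 ≤ b ≤ N²` -/
structure Fo (N : ℕ) (L : ℤ × ℕ) : Prop where
  a : |(L.1 : ℝ)| ≤ (N : ℝ) ^ 2
  b1 : 1 ≤ L.2
  b2 : (L.2 : ℝ) ≤ (N : ℝ) ^ 2
  cop : Int.gcd L.1 L.2 = 1

/-- the value of the form -/
def lf (L : ℤ × ℕ) (n : ℤ) : ℤ := L.1 + L.2 * n

/-- the discrepancy of `f` on the primes up to `N` with `d ∣ a + b p` -/
noncomputable def DL (f : ℕ → ℝ) (N : ℕ) (L : ℤ × ℕ) (d : ℕ) : ℝ :=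
  (∑ p ∈ (Icc 1 N).filter (fun p : ℕ => p.Prime ∧ (d : ℤ) ∣ lf L p), f p) -
    (∑ p ∈ (Icc 1 N).filter Nat.Prime, f p) / (Nat.totient d : ℝ)

/-- `∑_{d ≤ X} c_d (1_{d | L(n)} - 1/d)` -/
noncomputable def RL (c : ℕ → ℝ) (X : ℕ) (L : ℤ × ℕ) (n : ℤ) : ℝ :=
  ∑ d ∈ Icc 1 X, c d * BX.dl d (lf L n)

/-- the same, zero if `L(n) = 0` -/
noncomputable def rL (c : ℕ → ℝ) (X : ℕ) (L : ℤ × ℕ) (n : ℤ) : ℝ :=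
  if lf L n = 0 then 0 else RL c X L n

/-- coefficients: bounded by one, supported on rough numbers up to `X` coprime to `b` -/
structure CofL (y : ℝ) (X : ℕ) (L : ℤ × ℕ) (c : ℕ → ℝ) : Prop where
  bd : ∀ d, |c d| ≤ 1
  supp : ∀ d, c d ≠ 0 → d ≤ X ∧ BX.Rough y d ∧ Nat.Coprime d L.2

/-- **PA** (theorem `PA : St_PA`; import `Pool.Agent.H442R2.KF.Poi`).

Proof.  `KF.poisson_trunc` with `J = 0` (`m log N ≤ m N^δ ≤ N` for `N ≥ N₀(δ)`, `m ≤ N ≤ N³`): the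
only term is `j = 0`, which is `1`. -/
def St_PA : Prop := ∀ δ : ℝ, 0 < δ → ∃ N₀ : ℕ, ∀ N : ℕ, N₀ ≤ N → ∀ (m : ℕ) (c : ℤ), 1 ≤ m →
    (m : ℝ) ≤ (N : ℝ) ^ (1 - δ) →
    |∑' n : ℤ, (if (m : ℤ) ∣ n - c then Wt N n else 0) - N / m| ≤ 1 / (N : ℝ) ^ 5

/-- **PBL** (theorem `PBL (hRA : BX.St_RA) : St_PBL`; compare `BX/Rc.lean` (theorem `BX.RC`) and
`BX/Pb.lean` (theorem `BX.PB`)).

Proof.  Rough divisors of `m = L(n) ≠ 0`: `|m| ≤ N² + N² |n| ≤ N³ (1 + |n|/N)` (`N ≥ 1`).  With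
`y = N^ε`, `m'` the `y`-rough part of `|m|`, every rough `d ∣ m` divides `m'`, and `m'` has
`k = Ω(m') ≤ log|m|/(ε log N)` prime factors, so at most `2^k ≤ exp k` divisors, and
`exp k ≤ exp(3/ε) (1 + |n|/N)^(1/(ε log N)) ≤ exp(3/ε) (1 + |n|/N)^(1/4)` for `ε log N ≥ 4`.
Second part: `|RL| ≤ ∑_{d ≤ X} |c d| 1_{d | L(n)} + ∑ |c d|/d ≤ #rd + C` (RA), `roughs y X ⊆
roughs y N`. -/
def St_PBL : Prop := ∀ ε : ℝ, 0 < ε → ∃ (N₀ : ℕ) (C : ℝ), 0 < C ∧ ∀ (N X : ℕ), N₀ ≤ N → X ≤ N →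
    ∀ L : ℤ × ℕ, Fo N L →
    (∀ n : ℤ, lf L n ≠ 0 →
      ((BX.rd ((N : ℝ) ^ ε) X (lf L n)).card : ℝ) ≤ C * (1 + |(n : ℝ)| / N) ^ (1 / 4 : ℝ)) ∧
    ∀ c : ℕ → ℝ, CofL ((N : ℝ) ^ ε) X L c → ∀ n : ℤ,
      |rL c X L n| ≤ C * (1 + |(n : ℝ)| / N) ^ (1 / 4 : ℝ)

/-- **NCL** (theorem `NCL (hPBL : St_PBL) (hGS : BX.St_GS) : St_NCL`; copy and adapt `BX/Nc.lean`
(theorem `BX.NC`)).  Pairs of moduli with a common factor.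

Proof.  `L = (a, b)`, `L' = (a', b')`, `L ≠ L'`: `Δ = a b' - a' b ≠ 0` (otherwise `a b' = a' b` with
both pairs coprime and `b, b' ≥ 1` gives `b = b'`, `a = a'`), `|Δ| ≤ 2 N⁴`.
If `ε ≥ 1` the set `roughs` is empty (`X ≤ N`).  Small `N` (`N < N₀(ε)`): the inner sum is
`≤ ∑ Wt ≤ 4 (N + 1)`, at most `N²` pairs.  `N ≥ N₀`: exchange the sums: the left side is
`∑'_n Wt(n) #{(d, d') : d | L(n), d' | L'(n), d, d' rough ≤ X, (d, d') > 1}`.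
For `L(n) ≠ 0 ≠ L'(n)`: if there is a pair, a prime `l > N^ε` divides `d` and `d'`, hence `L(n)`,
`L'(n)` and `Δ = b' L(n) - b L'(n)`; the number of pairs is `≤ #rd(L(n)) #rd(L'(n)) ≤
C² (1 + |n|/N)^(1/2)`.  A prime `l | L(n)` does not divide `b` (else `l | a`), so
`{n : l | L(n)} = {n : l | n - n_l}` for some `n_l`, and these `n` contribute
`≤ ∑_{l | Δ, l > N^ε} ∑_{l | n - n_l} C² Wt_N(n) (1 + |n|/N) ≤ ∑_l 2 C² ∑_{l | n - n_l} Wt_{2N}(n)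
≤ ∑_l 8 C² (2N/l + 1) ≤ C' (N^(1-ε) + 1)`; the number of these `l` is `≤ 5/ε` (their product divides
`Δ ≤ 2N⁴ ≤ N⁵`).
There is at most one `n` with `L(n) = 0` and then `L'(n) ≠ 0` (`Δ ≠ 0`): `Wt(n) (1 + |n|/N)^(1/4) ≤ 2`,
at most `X` values `d` and `≤ C (1 + |n|/N)^(1/4)` values `d'`; the same for `L'(n) = 0`. -/
def St_NCL : Prop := ∀ ε : ℝ, 0 < ε → ∃ C : ℝ, 0 < C ∧ ∀ (N X : ℕ), 2 ≤ N → X ≤ N →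
    ∀ L L' : ℤ × ℕ, Fo N L → Fo N L' → L ≠ L' →
    ∑ d ∈ BX.roughs ((N : ℝ) ^ ε) X,
      ∑ d' ∈ (BX.roughs ((N : ℝ) ^ ε) X).filter (fun d' => ¬ Nat.Coprime d d'),
        ∑' n : ℤ, (if ((d : ℤ) ∣ lf L n ∧ (d' : ℤ) ∣ lf L' n) then Wt N n else 0) ≤
      C * ((N : ℝ) ^ (1 - ε) + X)

/-- **TTL** (theorem
`TTL (hPA : St_PA) (hPBL : St_PBL) (hNCL : St_NCL) (hRB : BX.St_RB) : St_TTL`; compare `BX/Tt.lean`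
and `BX/Ex.lean`).  The off-diagonal terms.

Proof.  WLOG `θ ≥ 1/4`, `ε ≤ 1`.  `ε₀ = min (ε/16) ((1 - 2θ)/8)`, `δ = (1 - 2θ)/2`.  Small `N`:
`nuS ≤ z² ≤ N²`, `|RL| ≤ 2X ≤ 2N`, `∑ Wt ≤ 4 (N+1)`: absorb in `C`.  Let `N ≥ N₀`.
(1) `∑' Wt ν R_L R_{L'}`.  Expand `ν(n) = ∑_{q₁,q₂ ≤ z} λ λ 1_{q | n}`, `q = lcm q₁ q₂`, and the
product: `∑_{q₁,q₂} λλ ∑_{d,d'} c_d c'_{d'} (S(q,d,d') - S(q,d,1)/d' - S(q,1,d')/d + S(q,1,1)/(dd'))`,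
`S(q,d,d') = ∑' Wt 1_{q | n} 1_{d | L(n)} 1_{d' | L'(n)}`.  Only odd `q ≤ z² ≤ N^(2ε₀)` with prime factors
`≤ z < N^ε` matter, so `q` is coprime to the rough `d, d'`.
 - `(d, d') = 1`: `d` is coprime to `b`, so `d | a + b n` iff `d | n - n_d` for some `n_d`, similarly
   `d'`; Chinese remainder theorem: the conditions are `q d d' | n - c`, and `q d d' ≤ N^(2ε₀ + 2θ) ≤
   N^(1-δ)`, so by PA `S(q,d,d') = N/(qdd') + O(N^(-5))`; the same for the three others, and the main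
   terms cancel: the bracket is `O(4 N^(-5))`, total `≤ 4 X² N^(-5) ≤ 1`.
 - `(d, d') > 1`: `|bracket| ≤ S(1,d,d') + 3 (N + 1)/(dd')` (PA for the others, moduli `q d ≤ N^(1-δ)`,
   etc.; `1/N⁵ ≤ 1/(d d')`); the sum is `≤ C (N^(1-ε) + X) + 3 (N+1) C N^(-ε/2)` (NCL, RB).
 The number of pairs `(q₁, q₂)` is `z² ≤ N^(2ε₀)`: (1) is `≤ C N^(2ε₀) (N^(1-ε/2) + N^θ) ≤ C N^(1-η)`.
(2) `∑' Wt ν r_L r_{L'} = (1) -` (the terms with `L(n) = 0` or `L'(n) = 0`, at most two values `n`):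
if `L(n) = 0` then `L'(n) ≠ 0`, `|R_L(n)| ≤ X`, `|R_{L'}(n)| Wt(n) ≤ 2 C` (PBL), `ν(n) ≤ z²`. -/
def St_TTL : Prop := ∀ θ ε : ℝ, θ < 1 / 2 → 0 < ε → ∃ (ε₀ η C : ℝ), 0 < ε₀ ∧ 0 < η ∧ 0 < C ∧
    ∀ (N z X : ℕ), 2 ≤ N → 1 ≤ z → (z : ℝ) ≤ (N : ℝ) ^ ε₀ → (X : ℝ) ≤ (N : ℝ) ^ θ →
    ∀ lam : ℕ → ℝ, BX.SW z lam → ∀ L L' : ℤ × ℕ, Fo N L → Fo N L' → L ≠ L' →
    ∀ c c' : ℕ → ℝ, CofL ((N : ℝ) ^ ε) X L c → CofL ((N : ℝ) ^ ε) X L' c' →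
    |∑' n : ℤ, Wt N n * BX.nuS lam z n * (rL c X L n * rL c' X L' n)| ≤ C * (N : ℝ) ^ (1 - η)

/-- **BLF** (theorem
`BLF (hTTL : St_TTL) (hPBL : St_PBL) (hGS : BX.St_GS) (hGW : BX.St_GW) (hWX : BX.St_WX)
(hRT : BX.St_RT) : St_BLF`; compare `BX/Bk.lean` (theorem `BX.BK`), `BX/Di.lean`, `BX/Du.lean`,
`BX/Pr.lean`).  The Bessel inequality for linear forms.

Proof.  (0) Duality as `BX.DU` for an arbitrary index type (repeat the short proof of `BX.DU` with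
`A : Finset ι`).  (1) Diagonal: by PBL `rL² ≤ C² (1 + |n|/N)`, `Wt_N(n) (1 + |n|/N) ≤ 2 Wt_{2N}(n)`
(GS) and GW at `2N`: `∑' Wt ν rL² ≤ 12 C² N/log z` (as in `BX.DI`; summability: `ν ≤ z²`, `Wt_{2N}`
summable, `KF.summable_Wt`).  (2) Prime side as in `BX.PR`: for `T` with signs `c_d = sign DL`,
`∑_{d ∈ T} |DL f N L d| = ∑_{p ≤ N} f p RL(p) - (∑_p f p) ∑_d c_d (1/φ(d) - 1/d)`, the last term is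
`≤ N · C N^(-ε/2)` (RT), the primes `p ≤ z` with `L(p) ≠ 0` contribute `≤ 2 C z` (PBL), the at most
one `p` with `L(p) = 0` contributes `≤ X`.  (3) As in `BX.BK`: `ε₀` from TTL (`≤ 1/4`),
`z = ⌊N^ε₀⌋`, `w = Wt ν`, `S` the primes in `(z, N]` (`1 ≤ 25 w(p)`: `BX.TaskBK.w_prime`), DU:
`∑_L Y_L² ≤ 25 (∑_{p ∈ S} f²) (C N/log z + |𝓛| C N^(1-η₁)) ≤ C (Q2 f N · N/log N + |𝓛| N^(2-η₁))`,
and `(|Y_L| + E)² ≤ 2 Y_L² + 2 E²`, `E ≤ C (z + X + N^(1-ε/2))`.  Small `N` trivial as in `BX.BK`. -/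
def St_BLF : Prop := ∀ θ ε : ℝ, θ < 1 / 2 → 0 < ε → ∃ (η C : ℝ), 0 < η ∧ 0 < C ∧
    ∀ N : ℕ, 2 ≤ N → ∀ f : ℕ → ℝ, (∀ p, |f p| ≤ 1) → ∀ A : Finset (ℤ × ℕ), (∀ L ∈ A, Fo N L) →
    ∀ T : ℤ × ℕ → Finset ℕ, (∀ L ∈ A, ∀ d ∈ T L, (d : ℝ) ≤ (N : ℝ) ^ θ ∧
      BX.Rough ((N : ℝ) ^ ε) d ∧ Nat.Coprime d L.2) →
    ∑ L ∈ A, (∑ d ∈ T L, |DL f N L d|) ^ 2 ≤
      C * (Q2 f N * (N / Real.log N) + A.card * (N : ℝ) ^ (2 - η))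

/-- **NU3** (theorem `NU3 : St_NU3`).  A numerical inequality: with `L = 99/200`, `v = 9/20`,
`a = 1/8` the left side is `29/30 · 2.1621… = 2.0900…`, the right side is `2.1923…`.

Proof.  `(1 - x/v)/(x (L - x)) = (1/L)/x + (1/L - 1/v)/(L - x)`, so the integral is
`(1/L) log(v/a) - (1/v - 1/L) log((L-a)/(L-v))`; the right side is `log(L/a - 1)/L`.  Bound the three
logarithms by rationals to about `10^(-2)`. -/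
def St_NU3 : Prop := 29 / 30 * (∫ x in (1 / 8 : ℝ)..(9 / 20),
      (1 - x / (9 / 20)) / (x * (99 / 200 - x))) < Real.log (74 / 25) / (99 / 200)

end Pool.Agent.W23.SG
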