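import Pool.Agent.W23.SG.Defs
import Pool.Agent.W23.DC.Fin4
import Pool.Agent.W23.DC.Fin5

/-!
SG project (helper23): sparse sets of primes and almost primes.
-/

namespace Pool.Agent.W23.SG

open Finset Filter
open Pool.Agent.H442R2
open Pool.Agent.H442R2.KF
open Pool.Agent.W23.DC

theorem Q2_fA {N : ℕ} {A : Finset ℕ} (hA : ∀ p ∈ A, p.Prime ∧ p ≤ N) : Q2 (fA A) N = A.card := by
  classical
  unfold Q2
  have h5 : A ⊆ (Icc 1 N).filter Nat.Prime := by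
    intro p hp
    have := hA p hp
    rw [mem_filter, mem_Icc]
    exact ⟨⟨this.1.pos, this.2⟩, this.1⟩
  rw [← Finset.sum_subset h5]
  · have : ∑ p ∈ A, fA A p ^ 2 = ∑ p ∈ A, (1 : ℝ) := by
      apply Finset.sum_congr rfl
      intro p hp
      unfold fA
      rw [if_pos hp]
      norm_num
    rw [this]
    simp
  · intro p _ hpn
    unfold fA
    rw [if_neg hpn]
    norm_num

/-- the number of large discrepancies -/
theorem few2 (h : St_FIF2) {θ δ ε κ : ℝ} (hθ : θ < 5 / 9) (hδ : 0 < δ) (hε : 0 < ε) (hκ : 0 < κ) :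
    ∃ (η C : ℝ) (N₀ : ℕ), 0 < η ∧ 0 < C ∧ ∀ N : ℕ, N₀ ≤ N → ∀ A : Finset ℕ,
      (∀ p ∈ A, p.Prime ∧ p ≤ N) → (N : ℝ) ^ (1 - η) ≤ 4 * A.card →
      (((Icc (-(N : ℤ)) N).filter (fun a : ℤ => κ * A.card ≤
        ∑ d ∈ facR N θ ε δ, |BX.Df (fA A) N a d|)).card : ℝ) ≤
        C * (N / (A.card * Real.log N)) := by
  obtain ⟨η, C, hη, hC, H⟩ := h θ δ ε hθ hδ hε
  have hlim : ∃ N₀ : ℕ, ∀ N : ℕ, N₀ ≤ N → C * (N : ℝ) ^ (-(η / 2)) ≤ κ ^ 2 / 32 := by
    have h1 : Filter.Tendsto (fun N : ℕ => C * (N : ℝ) ^ (-(η / 2))) Filter.atTop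
        (nhds (C * 0)) :=
      ((tendsto_rpow_neg_atTop (by positivity : 0 < η / 2)).comp
        (tendsto_natCast_atTop_atTop (R := ℝ))).const_mul C
    rw [mul_zero] at h1
    have h2 := h1.eventually_le_const (show (0 : ℝ) < κ ^ 2 / 32 by positivity)
    exact Filter.eventually_atTop.1 h2
  obtain ⟨N₀, hN₀⟩ := hlim
  refine ⟨η / 4, 2 * C / κ ^ 2, max N₀ 2, by positivity, by positivity, ?_⟩
  intro N hN A hA hAc
  have hNN₀ : N₀ ≤ N := (le_max_left _ _).trans hN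
  have hN2 : 2 ≤ N := (le_max_right _ _).trans hN
  set E := (Icc (-(N : ℤ)) N).filter (fun a : ℤ => κ * A.card ≤
        ∑ d ∈ facR N θ ε δ, |BX.Df (fA A) N a d|) with hE
  have hEA : ∀ a ∈ E, |(a : ℝ)| ≤ N := by
    intro a ha
    rw [hE, mem_filter, mem_Icc] at ha
    rw [abs_le]
    constructor
    · exact_mod_cast ha.1.1
    · exact_mod_cast ha.1.2
  have h1 := H N hN2 (fA A) (fA_le A) E hEA
  rw [Q2_fA hA] at h1
  have hNr : (2 : ℝ) ≤ N := by exact_mod_cast hN2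
  have hL : 0 < Real.log N := Real.log_pos (by linarith)
  have hN0 : (0 : ℝ) < N := by linarith
  have hA0 : (0 : ℝ) < A.card := by
    have : 0 < (N : ℝ) ^ (1 - η / 4) := Real.rpow_pos_of_pos hN0 _
    linarith
  have h2 : (E.card : ℝ) * (κ ^ 2 * (A.card : ℝ) ^ 2) ≤
      ∑ a ∈ E, (∑ d ∈ facR N θ ε δ, |BX.Df (fA A) N a d|) ^ 2 := by
    rw [← nsmul_eq_mul, ← Finset.sum_const]
    apply Finset.sum_le_sum
    intro a ha
    rw [hE, mem_filter] at ha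
    rw [← mul_pow]
    exact pow_le_pow_left₀ (by positivity) ha.2 2
  have h3 : C * (N : ℝ) ^ (2 - η) ≤ κ ^ 2 / 2 * (A.card : ℝ) ^ 2 := by
    have e1 : (N : ℝ) ^ (2 - η) = (N : ℝ) ^ (-(η / 2)) * ((N : ℝ) ^ (1 - η / 4)) ^ 2 := by
      rw [← Real.rpow_natCast ((N : ℝ) ^ (1 - η / 4)) 2, ← Real.rpow_mul hN0.le,
        ← Real.rpow_add hN0]
      congr 1
      push_cast
      ring
    rw [e1, ← mul_assoc]
    calc C * (N : ℝ) ^ (-(η / 2)) * ((N : ℝ) ^ (1 - η / 4)) ^ 2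
        ≤ κ ^ 2 / 32 * (4 * A.card) ^ 2 := by
          have := hN₀ N hNN₀
          gcongr
      _ = _ := by ring
  have h4 : (E.card : ℝ) * (κ ^ 2 / 2 * (A.card : ℝ) ^ 2) ≤ C * (A.card * (N / Real.log N)) := by
    have h5 := h2.trans h1
    have h6 : (E.card : ℝ) * (C * (N : ℝ) ^ (2 - η)) ≤
        E.card * (κ ^ 2 / 2 * (A.card : ℝ) ^ 2) :=
      mul_le_mul_of_nonneg_left h3 (Nat.cast_nonneg _)
    nlinarith
  have h7 : (E.card : ℝ) * (κ ^ 2 / 2 * (A.card : ℝ) ^ 2) =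
      (A.card : ℝ) * (E.card * (κ ^ 2 / 2 * A.card)) := by ring
  have h8 : C * (A.card * (N / Real.log N)) = (A.card : ℝ) * (C * (N / Real.log N)) := by ring
  rw [h7, h8] at h4
  have h9 := le_of_mul_le_mul_left h4 hA0
  calc (E.card : ℝ) = E.card * (κ ^ 2 / 2 * A.card) * (2 / (κ ^ 2 * A.card)) := by
        field_simp
    _ ≤ C * (N / Real.log N) * (2 / (κ ^ 2 * A.card)) := by gcongr
    _ = _ := by
        field_simp

open Classical in
/-- the theorem in terms of `N` -/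
theorem sparse_N (hPT : St_PT) (hLN : St_LN) (hER : St_ER) (hMI : St_MI) (hMT : St_MT)
    (hMP : St_MP) (hFA : St_FA) (hNU : St_NU) (hSFX : St_SFX) (hFIF : St_FIF2)
    (ε : ℝ) (hε : 0 < ε) :
    ∃ (c C η : ℝ) (N₀ : ℕ), 0 < c ∧ 0 < C ∧ 0 < η ∧ ∀ N : ℕ, N₀ ≤ N → ∀ A : Finset ℕ,
      (∀ p ∈ A, p.Prime ∧ p ≤ N) → (N : ℝ) ^ (1 - η) ≤ 4 * A.card →
      (((Icc (-(N : ℤ)) N).filter (fun a : ℤ => ((A.filter (fun p : ℕ => (p : ℤ) ≠ a ∧
        ∃ m s : ℕ, (a - p).natAbs = m * s ∧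
          (∀ l : ℕ, l.Prime → l ∣ m → (l : ℝ) < (N : ℝ) ^ ε) ∧
          s.primeFactorsList.length ≤ 2 ∧
          ∀ q ∈ s.primeFactors, (N : ℝ) ^ (1 / 7 : ℝ) ≤ q)).card : ℝ) < c * A.card)).card : ℝ) ≤
        C * (N / (A.card * Real.log N)) := by
  obtain ⟨A0, F, f, hS⟩ := hSFX
  obtain ⟨c₀, hc₀, H1⟩ := lowerW hPT hLN hER hMI hMT hMP hFA hNU A0 F f hS
  set ε₁ : ℝ := min (1 / 25) ε with hε₁'
  have hε₁ : 0 < ε₁ := lt_min (by norm_num) hε
  have hε₁a : ε₁ ≤ 1 / 25 := min_le_left _ _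
  have hε₁b : ε₁ ≤ ε := min_le_right _ _
  obtain ⟨N₁, hN₁⟩ := H1 ε₁ hε₁ hε₁a
  obtain ⟨N₃, hN₃⟩ := struct
  obtain ⟨κ, hκ, hκ2⟩ : ∃ κ : ℝ, 0 < κ ∧ 3 * κ = c₀ * ε₁ / 2 :=
    ⟨c₀ * ε₁ / 6, by positivity, by ring⟩
  obtain ⟨η', C, N₂, hη', hC, H2⟩ := few2 hFIF (θ := 111 / 200) (δ := 1 / 500) (ε := ε₁ / 2)
    (κ := κ) (by norm_num) (by norm_num) (by positivity) hκ
  -- large `N`
  obtain ⟨N₄, hN₄⟩ : ∃ N₄ : ℕ, ∀ N : ℕ, N₄ ≤ N →
      12 * (N : ℝ) ^ (6 / 7 : ℝ) + 1 ≤ c₀ * ε₁ / 16 * (N : ℝ) ^ (13 / 14 : ℝ) := by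
    have hlim : Tendsto (fun N : ℕ => (N : ℝ) ^ (-(1 / 14 : ℝ))) atTop (nhds 0) :=
      (tendsto_rpow_neg_atTop (by norm_num : (0 : ℝ) < 1 / 14)).comp
        (tendsto_natCast_atTop_atTop (R := ℝ))
    have h1 := hlim.eventually_le_const (show (0 : ℝ) < c₀ * ε₁ / 16 / 13 by positivity)
    obtain ⟨M, hM⟩ := Filter.eventually_atTop.1 h1
    refine ⟨max M 2, fun N hN => ?_⟩
    have hNM : M ≤ N := (le_max_left _ _).trans hN
    have hN2 : 2 ≤ N := (le_max_right _ _).trans hN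
    have hN1 : (1 : ℝ) < N := by exact_mod_cast (by omega : 1 < N)
    have hN0 : (0 : ℝ) < N := by linarith
    have h2 := hM N hNM
    have h4 : (N : ℝ) ^ (6 / 7 : ℝ) = (N : ℝ) ^ (-(1 / 14 : ℝ)) * (N : ℝ) ^ (13 / 14 : ℝ) := by
      rw [← Real.rpow_add hN0]
      norm_num
    have h6 : (1 : ℝ) ≤ (N : ℝ) ^ (6 / 7 : ℝ) := Real.one_le_rpow hN1.le (by norm_num)
    have h7 : 13 * (N : ℝ) ^ (6 / 7 : ℝ) ≤ c₀ * ε₁ / 16 * (N : ℝ) ^ (13 / 14 : ℝ) := by
      rw [h4]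
      have h8 : 0 ≤ (N : ℝ) ^ (13 / 14 : ℝ) := by positivity
      nlinarith
    linarith
  refine ⟨c₀ * ε₁ / 4, C, min η' (1 / 14), max (max N₁ N₂) (max (max N₃ N₄) 2), by positivity,
    hC, lt_min hη' (by norm_num), ?_⟩
  intro N hN A hA hAc
  have hNN₁ : N₁ ≤ N := ((le_max_left _ _).trans (le_max_left _ _)).trans hN
  have hNN₂ : N₂ ≤ N := ((le_max_right _ _).trans (le_max_left _ _)).trans hN
  have hNN₃ : N₃ ≤ N :=
    (((le_max_left _ _).trans (le_max_left _ _)).trans (le_max_right _ _)).trans hN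
  have hNN₄ : N₄ ≤ N :=
    (((le_max_right _ _).trans (le_max_left _ _)).trans (le_max_right _ _)).trans hN
  have hN2 : 2 ≤ N := ((le_max_right _ _).trans (le_max_right _ _)).trans hN
  have hN1 : (1 : ℝ) < N := by exact_mod_cast (by omega : 1 < N)
  have hN0 : (0 : ℝ) < N := by linarith
  have hL : 0 < Real.log N := Real.log_pos hN1
  have hAc1 : (N : ℝ) ^ (1 - η') ≤ 4 * A.card := by
    refine le_trans (Real.rpow_le_rpow_of_exponent_le hN1.le ?_) hAc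
    have := min_le_left η' (1 / 14)
    linarith
  have hAc2 : (N : ℝ) ^ (13 / 14 : ℝ) ≤ 4 * A.card := by
    refine le_trans (Real.rpow_le_rpow_of_exponent_le hN1.le ?_) hAc
    have := min_le_right η' (1 / 14)
    linarith
  refine le_trans ?_ (H2 N hNN₂ A hA hAc1)
  have hcc : ∀ {s t : Finset ℤ}, s ⊆ t → (s.card : ℝ) ≤ t.card := fun h => by
    exact_mod_cast Finset.card_le_card h
  apply hcc
  intro a ha
  rw [mem_filter] at ha ⊢
  refine ⟨ha.1, ?_⟩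
  by_contra hnot
  rw [not_le] at hnot
  have ha' : |(a : ℝ)| ≤ N := by
    rw [mem_Icc] at ha
    rw [abs_le]
    constructor
    · exact_mod_cast ha.1.1
    · exact_mod_cast ha.1.2
  have haz : |a| ≤ (N : ℤ) := by
    rw [mem_Icc] at ha
    exact abs_le.2 ha.1
  have hlow := hN₁ N hNN₁ A hA a
  have hpos := sum_le_pos (N := N) (ε₁ := ε₁) A (fun p : ℕ => (a - (p : ℤ)).natAbs)
  -- the good set
  set Gd := A.filter (fun p : ℕ => (p : ℤ) ≠ a ∧
        ∃ m s : ℕ, (a - p).natAbs = m * s ∧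
          (∀ l : ℕ, l.Prime → l ∣ m → (l : ℝ) < (N : ℝ) ^ ε) ∧
          s.primeFactorsList.length ≤ 2 ∧
          ∀ q ∈ s.primeFactors, (N : ℝ) ^ (1 / 7 : ℝ) ≤ q) with hGd
  have hgood : (Gd.card : ℝ) < c₀ * ε₁ / 4 * A.card := ha.2
  set B1 := A.filter (fun p : ℕ => (p : ℤ) ≠ a ∧ ∃ q : ℕ, q.Prime ∧ (N : ℝ) ^ (1 / 7 : ℝ) ≤ q ∧
      q ^ 2 ∣ (a - (p : ℤ)).natAbs) with hB1
  set B3 := A.filter (fun p : ℕ => ((a - (p : ℤ)).natAbs : ℝ) ≤ 0) with hB3
  have hcover : A.filter (fun p : ℕ => 0 < Wf N ε₁ (a - (p : ℤ)).natAbs) ⊆ (Gd ∪ B1) ∪ B3 := by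
    intro p hp
    rw [mem_filter] at hp
    obtain ⟨hpA, hpW⟩ := hp
    by_contra hno
    simp only [mem_union, not_or] at hno
    obtain ⟨⟨g1, g2⟩, g4⟩ := hno
    have hpa : (p : ℤ) ≠ a := by
      rintro rfl
      apply g4
      rw [hB3, mem_filter]
      exact ⟨hpA, by simp⟩
    have hn0 : (a - (p : ℤ)).natAbs ≠ 0 := by
      rw [Ne, Int.natAbs_eq_zero]
      omega
    have hn2 : (a - (p : ℤ)).natAbs ≤ 2 * N := by
      have h3 := abs_le.1 haz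
      have h4 := (hA p hpA).2
      omega
    obtain ⟨m, s, hms, hm, hs2, hs3⟩ := hN₃ N hNN₃ ε₁ _ hn0 hn2 hpW (fun q hq hqN hqd => by
      apply g2
      rw [hB1, mem_filter]
      exact ⟨hpA, hpa, q, hq, hqN, hqd⟩)
    apply g1
    rw [hGd, mem_filter]
    exact ⟨hpA, hpa, m, s, hms, fun l hl hlm => lt_of_lt_of_le (hm l hl hlm)
      (Real.rpow_le_rpow_of_exponent_le hN1.le hε₁b), hs2, hs3⟩
  have hcard : ((A.filter (fun p : ℕ => 0 < Wf N ε₁ (a - (p : ℤ)).natAbs)).card : ℝ) ≤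
      Gd.card + B1.card + B3.card := by
    have h1 := (Finset.card_le_card hcover).trans (Finset.card_union_le _ _)
    have h3 := Finset.card_union_le Gd B1
    have h4 : (A.filter (fun p : ℕ => 0 < Wf N ε₁ (a - (p : ℤ)).natAbs)).card ≤
        Gd.card + B1.card + B3.card := by omega
    exact_mod_cast h4
  have hb1 : (B1.card : ℝ) ≤ 12 * (N : ℝ) ^ (6 / 7 : ℝ) :=
    squares hN2 A (fun p hp => (hA p hp).2) a haz
  have hb3 : (B3.card : ℝ) ≤ 2 * 0 + 1 := close A a _ le_rfl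
  have hb4 := hN₄ N hNN₄
  have hR : 3 * ∑ d ∈ facR N (111 / 200) (ε₁ / 2) (1 / 500), |BX.Df (fA A) N a d| ≤
      c₀ * ε₁ / 2 * A.card := by
    calc _ ≤ 3 * (κ * A.card) := by linarith
      _ = (3 * κ) * A.card := by ring
      _ = _ := by rw [hκ2]
  have hb5 : c₀ * ε₁ / 16 * (N : ℝ) ^ (13 / 14 : ℝ) ≤ c₀ * ε₁ / 4 * A.card := by
    have : 0 ≤ c₀ * ε₁ / 16 := by positivity
    nlinarith
  linarith

open Classical in
/-- **Sparse sets of primes and almost primes** -/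
theorem sparse (hPT : St_PT) (hLN : St_LN) (hER : St_ER) (hMI : St_MI) (hMT : St_MT)
    (hMP : St_MP) (hFA : St_FA) (hNU : St_NU) (hSFX : St_SFX) (hFIF : St_FIF2)
    (ε : ℝ) (hε : 0 < ε) :
    ∃ c C η : ℝ, 0 < c ∧ 0 < η ∧ ∀ X : ℕ, 2 ≤ X → ∀ A : Finset ℕ,
      (∀ p ∈ A, p.Prime ∧ p ≤ X) → (X : ℝ) ^ (1 - η) ≤ A.card →
      (((Icc (-(2 * X : ℤ)) (2 * X)).filter (fun N : ℤ => ((A.filter (fun p : ℕ =>
        (p : ℤ) ≠ N ∧ ∃ m s : ℕ, (N - p).natAbs = m * s ∧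
          (∀ l : ℕ, l.Prime → l ∣ m → (l : ℝ) < (X : ℝ) ^ ε) ∧
          s.primeFactorsList.length ≤ 2 ∧
          ∀ q ∈ s.primeFactors, (X : ℝ) ^ (1 / 7 : ℝ) < q)).card : ℝ) < c * A.card)).card : ℝ) ≤
        C * (X / (A.card * Real.log X)) := by
  obtain ⟨c, C, η, N₀, hc, hC, hη, H⟩ := sparse_N hPT hLN hER hMI hMT hMP hFA hNU hSFX hFIF
    (ε / 2) (by positivity)
  set η₁ := min η (1 / 2) with hη₁
  have hη₁0 : 0 < η₁ := lt_min hη (by norm_num)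
  refine ⟨c, max (2 * C) (5 * (N₀ + 2) * Real.log (N₀ + 2)), η₁, hc, hη₁0, ?_⟩
  intro X hX A hA hAc
  have hX2 : (2 : ℝ) ≤ X := by exact_mod_cast hX
  have hX0 : (0 : ℝ) < X := by linarith
  have hLX : 0 < Real.log X := Real.log_pos (by linarith)
  have hA0 : (0 : ℝ) < A.card := lt_of_lt_of_le (Real.rpow_pos_of_pos hX0 _) hAc
  have hAX : (A.card : ℝ) ≤ X := by
    have : A.card ≤ (Icc 1 X).card := Finset.card_le_card (fun p hp => by
      rw [mem_Icc]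
      exact ⟨(hA p hp).1.pos, (hA p hp).2⟩)
    rw [Nat.card_Icc] at this
    exact_mod_cast (by omega : A.card ≤ X)
  have hQ : 0 < (X : ℝ) / (A.card * Real.log X) := by positivity
  rcases lt_or_ge X N₀ with hlt | hge
  · have h1 : (1 : ℝ) ≤ Real.log (N₀ + 2) * (X / (A.card * Real.log X)) := by
      rw [← mul_div_assoc, le_div_iff₀ (by positivity), one_mul]
      have h2 : Real.log X ≤ Real.log (N₀ + 2) := by
        apply Real.log_le_log hX0
        have : (X : ℝ) ≤ N₀ := by exact_mod_cast hlt.le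
        linarith
      calc (A.card : ℝ) * Real.log X ≤ X * Real.log (N₀ + 2) := by gcongr
        _ = _ := by ring
    have h3 : (((Icc (-(2 * X : ℤ)) (2 * X)).filter (fun N : ℤ => ((A.filter (fun p : ℕ =>
        (p : ℤ) ≠ N ∧ ∃ m s : ℕ, (N - p).natAbs = m * s ∧
          (∀ l : ℕ, l.Prime → l ∣ m → (l : ℝ) < (X : ℝ) ^ ε) ∧
          s.primeFactorsList.length ≤ 2 ∧
          ∀ q ∈ s.primeFactors, (X : ℝ) ^ (1 / 7 : ℝ) < q)).card : ℝ) < c * A.card)).card : ℝ) ≤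
        5 * (N₀ + 2) := by
      have h4 := Finset.card_filter_le (Icc (-(2 * X : ℤ)) (2 * X)) (fun N : ℤ =>
        ((A.filter (fun p : ℕ =>
        (p : ℤ) ≠ N ∧ ∃ m s : ℕ, (N - p).natAbs = m * s ∧
          (∀ l : ℕ, l.Prime → l ∣ m → (l : ℝ) < (X : ℝ) ^ ε) ∧
          s.primeFactorsList.length ≤ 2 ∧
          ∀ q ∈ s.primeFactors, (X : ℝ) ^ (1 / 7 : ℝ) < q)).card : ℝ) < c * A.card)
      rw [Int.card_Icc] at h4
      have h5 : (2 * (X : ℤ) + 1 - -(2 * (X : ℤ))).toNat ≤ 5 * (N₀ + 2) := by omega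
      exact_mod_cast h4.trans h5
    calc _ ≤ 5 * ((N₀ : ℝ) + 2) := h3
      _ = 5 * (N₀ + 2) * 1 := by ring
      _ ≤ 5 * (N₀ + 2) * (Real.log (N₀ + 2) * (X / (A.card * Real.log X))) := by gcongr
      _ = (5 * (N₀ + 2) * Real.log (N₀ + 2)) * (X / (A.card * Real.log X)) := by ring
      _ ≤ _ := by
          gcongr
          exact le_max_right _ _
  · have hA2 : ((2 * X : ℕ) : ℝ) ^ (1 - η) ≤ 4 * A.card := by
      push_cast
      calc (2 * (X : ℝ)) ^ (1 - η) ≤ (2 * (X : ℝ)) ^ (1 - η₁) := by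
            apply Real.rpow_le_rpow_of_exponent_le (by linarith)
            have := min_le_left η (1 / 2)
            linarith
        _ = 2 ^ (1 - η₁) * (X : ℝ) ^ (1 - η₁) := Real.mul_rpow (by norm_num) hX0.le
        _ ≤ 2 ^ (1 : ℝ) * A.card := by
            gcongr
            · norm_num
            · linarith
        _ ≤ 4 * A.card := by
            rw [Real.rpow_one]
            linarith
    have key := H (2 * X) (by omega) A (fun p hp => ⟨(hA p hp).1, by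
      have := (hA p hp).2
      omega⟩) hA2
    have hsub : ((Icc (-(2 * X : ℤ)) (2 * X)).filter (fun N : ℤ => ((A.filter (fun p : ℕ =>
        (p : ℤ) ≠ N ∧ ∃ m s : ℕ, (N - p).natAbs = m * s ∧
          (∀ l : ℕ, l.Prime → l ∣ m → (l : ℝ) < (X : ℝ) ^ ε) ∧
          s.primeFactorsList.length ≤ 2 ∧
          ∀ q ∈ s.primeFactors, (X : ℝ) ^ (1 / 7 : ℝ) < q)).card : ℝ) < c * A.card)) ⊆
        ((Icc (-((2 * X : ℕ) : ℤ)) ((2 * X : ℕ) : ℤ)).filter
          (fun a : ℤ => ((A.filter (fun p : ℕ => (p : ℤ) ≠ a ∧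
        ∃ m s : ℕ, (a - p).natAbs = m * s ∧
          (∀ l : ℕ, l.Prime → l ∣ m → (l : ℝ) < ((2 * X : ℕ) : ℝ) ^ (ε / 2)) ∧
          s.primeFactorsList.length ≤ 2 ∧
          ∀ q ∈ s.primeFactors, ((2 * X : ℕ) : ℝ) ^ (1 / 7 : ℝ) ≤ q)).card : ℝ) <
            c * A.card)) := by
      intro a ha
      rw [mem_filter] at ha ⊢
      constructor
      · have := ha.1
        push_cast
        exact this
      · refine lt_of_le_of_lt ?_ ha.2
        have hs : (A.filter (fun p : ℕ => (p : ℤ) ≠ a ∧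
          ∃ m s : ℕ, (a - p).natAbs = m * s ∧
          (∀ l : ℕ, l.Prime → l ∣ m → (l : ℝ) < ((2 * X : ℕ) : ℝ) ^ (ε / 2)) ∧
          s.primeFactorsList.length ≤ 2 ∧
          ∀ q ∈ s.primeFactors, ((2 * X : ℕ) : ℝ) ^ (1 / 7 : ℝ) ≤ q)) ⊆
            (A.filter (fun p : ℕ => (p : ℤ) ≠ a ∧
          ∃ m s : ℕ, (a - p).natAbs = m * s ∧
          (∀ l : ℕ, l.Prime → l ∣ m → (l : ℝ) < (X : ℝ) ^ ε) ∧
          s.primeFactorsList.length ≤ 2 ∧
          ∀ q ∈ s.primeFactors, (X : ℝ) ^ (1 / 7 : ℝ) < q)) := by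
          intro p hp
          rw [mem_filter] at hp ⊢
          obtain ⟨hpA, hpa, m, s, h1, h2, h4, h5⟩ := hp
          refine ⟨hpA, hpa, m, s, h1, fun l hl hlm => lt_of_lt_of_le (h2 l hl hlm) ?_, h4,
            fun q hq => lt_of_lt_of_le ?_ (h5 q hq)⟩
          · push_cast
            calc (2 * (X : ℝ)) ^ (ε / 2) ≤ ((X : ℝ) ^ (2 : ℝ)) ^ (ε / 2) := by
                  apply Real.rpow_le_rpow (by positivity) _ (by positivity)
                  rw [Real.rpow_two]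
                  nlinarith
              _ = (X : ℝ) ^ ε := by
                  rw [← Real.rpow_mul hX0.le]
                  congr 1
                  ring
          · push_cast
            exact Real.rpow_lt_rpow hX0.le (by linarith) (by norm_num)
        exact_mod_cast Finset.card_le_card hs
    calc _ ≤ _ := Nat.cast_le.2 (Finset.card_le_card hsub)
      _ ≤ C * (((2 * X : ℕ) : ℝ) / (A.card * Real.log ((2 * X : ℕ) : ℝ))) := key
      _ ≤ C * (2 * X / (A.card * Real.log X)) := by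
          push_cast
          gcongr
          linarith
      _ = (2 * C) * (X / (A.card * Real.log X)) := by ring
      _ ≤ _ := by
          gcongr
          exact le_max_left _ _

end Pool.Agent.W23.SG
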